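import Pool.Agent.U481.TY.Loc

/-!
Critical vortex chains: the vorticity is concentrated near a singular point (viscosity one).
-/

set_option autoImplicit false

open MeasureTheory Set Metric Filter Topology
open scoped ContDiff
open H459R3.NS Pool.Agent.W268.NS Pool.Agent.Q67.VD
open Pool.Agent.Q199.VD

namespace Pool.Agent.U481.TY

open Pool.Agent.Q85.CC Pool.Agent.Q85.CL Pool.Agent.Q85.VL Pool.Agent.Q151.CC

set_option maxHeartbeats 1600000 in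
/-- Without concentrations of the vorticity near `(T, a)` the velocity is bounded near `(T, a)`;
the constant depends only on the Morrey constant. -/
theorem conc : ∀ K : ℝ, 0 < K → ∃ η : ℝ, 0 < η ∧ η ≤ 1 ∧
    ∀ (T E : ℝ) (O : Set V) (u : ℝ → V → V) (p : ℝ → V → ℝ), 0 < T → LSl T E O u p →
    ∀ (T₀ ρ₀ : ℝ) (a : V), 0 ≤ T₀ → T₀ < T → 0 < ρ₀ → closedBall a ρ₀ ⊆ O →
      (∀ t ∈ Ioo T₀ T, MorB K a ρ₀ (om (u t))) →
      ∀ (T₁ ρ' : ℝ), T₀ ≤ T₁ → T₁ < T → 0 < ρ' → ρ' ≤ ρ₀ / 4 →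
      (∀ t ∈ Ioo T₁ T, ∀ x ρ, 0 < ρ → ‖x - a‖ + ρ ≤ ρ' →
        ∫ y in closedBall x ρ, om (u t) y < η * ρ) →
      ∃ B δ : ℝ, 0 < δ ∧ ∀ t ∈ Ioo (T - δ) T, 0 < t → ∀ x ∈ closedBall a δ, ‖u t x‖ ≤ B := by
  intro K hK
  obtain ⟨KV, hKV, hMolV⟩ := molU Pool.Agent.Q284.CL.velL K hK
  obtain ⟨ε, hε, hReg⟩ := Pool.Agent.Q95.CL.regK KV hKV
  obtain ⟨cS, hcS, hSmall⟩ := stmEnS ε hε
  refine ⟨min cS 1, lt_min hcS one_pos, min_le_right _ _, ?_⟩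
  intro T E O u p hT hu T₀ ρ₀ a hT₀ hT₀T hρ₀ hO hMor T₁ ρ' hT₀₁ hT₁T hρ' hρρ hno
  obtain ⟨r₄, hr₄, hmol⟩ := hMolV T E O u p hT hu T₀ ρ₀ a hT₀ hT₀T hρ₀ hO hMor
  obtain ⟨r₂, hr₂, hsm⟩ := hSmall T E O u p hT hu T₁ ρ' a (by linarith) hT₁T hρ'
    ((closedBall_subset_closedBall (by linarith)).trans hO) (by
      intro t ht x r hr hxr
      have h1 := hno t ht x r hr hxr
      rw [abs_omL]
      exact h1.le.trans (mul_le_mul_of_nonneg_right (min_le_left _ _) hr.le))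
  obtain ⟨r₃, hr₃d⟩ : ∃ r₃, r₃ = min r₂ r₄ := ⟨_, rfl⟩
  have hr₃ : 0 < r₃ := by rw [hr₃d]; exact lt_min hr₂ hr₄
  have hr₃2 : r₃ ≤ r₂ := by rw [hr₃d]; exact min_le_left _ _
  have hr₃4 : r₃ ≤ r₄ := by rw [hr₃d]; exact min_le_right _ _
  obtain ⟨B, δ, hδ, hbd⟩ := hReg T E O u p hT hu ((T₁ + T) / 2) r₃ (ρ' / 2) a
    (by linarith) (by linarith) hr₃ (by positivity)
    ((closedBall_subset_closedBall (by linarith)).trans hO)
    (fun t ht x hx r hr => hmol t ⟨by linarith [ht.1], ht.2⟩ x (by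
      rw [mem_closedBall, dist_eq_norm] at hx
      linarith) r ⟨hr.1, hr.2.trans hr₃4⟩)
    (fun t ht x hx r hr => hsm t ht x hx r ⟨hr.1, hr.2.trans hr₃2⟩)
  refine ⟨B, min δ (ρ' / 4), lt_min hδ (by positivity), fun t ht ht0 x hx => ?_⟩
  refine hbd t ⟨?_, ht.2⟩ ht0 x (closedBall_subset_closedBall ?_ hx)
  · linarith [ht.1, min_le_left δ (ρ' / 4)]
  · linarith [min_le_right δ (ρ' / 4)]

end Pool.Agent.U481.TY
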