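import Pool.Agent.U481.TY.Dis
import Pool.Agent.U481.TY.Reg1

/-!
Critical vortex chains: at every small scale the vorticity is concentrated near a singular point
(viscosity one).
-/

set_option autoImplicit false

open MeasureTheory Set Metric Filter Topology
open scoped ContDiff
open H459R3.NS Pool.Agent.W268.NS Pool.Agent.Q67.VD
open Pool.Agent.Q199.VD

namespace Pool.Agent.U481.TY

open Pool.Agent.Q85.CC Pool.Agent.Q85.CL Pool.Agent.Q85.VL Pool.Agent.Q151.CC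

set_option maxHeartbeats 1600000 in
/-- If the integral of the vorticity over the cube with centre `a` and side `2 R` is small, for all
the times between `T - R²` and `T - c R²`, then the velocity is bounded near `(T, a)`. -/
theorem conc2 : ∀ K : ℝ, 0 < K → ∃ η c : ℝ, 0 < η ∧ 0 < c ∧ c ≤ 1 ∧
    ∀ (T E : ℝ) (O : Set V) (u : ℝ → V → V) (p : ℝ → V → ℝ), 0 < T → LSl T E O u p →
    ∀ (T₀ ρ₀ : ℝ) (a : V), 0 ≤ T₀ → T₀ < T → 0 < ρ₀ → closedBall a ρ₀ ⊆ O →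
      (∀ t ∈ Ioo T₀ T, MorB K a ρ₀ (om (u t))) →
      ∃ R₀ : ℝ, 0 < R₀ ∧ ∀ R ∈ Ioc 0 R₀,
        (∀ t ∈ Ioo (T - R ^ 2) (T - c * R ^ 2), ∫ y in closedBall a R, om (u t) y ≤ η * R) →
        ∃ B δ : ℝ, 0 < δ ∧ ∀ t ∈ Ioo (T - δ) T, 0 < t → ∀ x ∈ closedBall a δ, ‖u t x‖ ≤ B := by
  intro K hK
  obtain ⟨KV, hKV, hMolV⟩ := molU Pool.Agent.Q284.CL.velL K hK
  obtain ⟨ε, hε, hReg⟩ := reg1 KV hKV
  obtain ⟨Λ, η₁, c₁, hΛ, hη₁, hc₁, hc₁1, hDis⟩ := dis1 stmFlxL Pool.Agent.Q2.CL.lel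
    Pool.Agent.Q284.CL.velL Pool.Agent.Q81.CC.near Pool.Agent.Q81.CL.decL K ε hK hε
  obtain ⟨L, hL⟩ : ∃ L, L = Λ + 3 := ⟨_, rfl⟩
  have hL4 : 4 ≤ L := by rw [hL]; linarith
  have hL0 : 0 < L := by linarith
  refine ⟨η₁ / (4 * L), c₁ / (16 * L ^ 2), by positivity, by positivity, ?_, ?_⟩
  · rw [div_le_one (by positivity)]
    nlinarith
  intro T E O u p hT hu T₀ ρ₀ a hT₀ hT₀T hρ₀ hO hMor
  obtain ⟨r₂, hr₂, hmol⟩ := hMolV T E O u p hT hu T₀ ρ₀ a hT₀ hT₀T hρ₀ hO hMor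
  obtain ⟨ρ, n₀, hρ, hDis⟩ := hDis T E O u p hT hu T₀ ρ₀ a hT₀ hT₀T hρ₀ hO hMor
  obtain ⟨rm, hrm, hReg⟩ := hReg T E O u p hT hu T₀ (ρ₀ / 2) a hT₀ hT₀T (by positivity)
    ((closedBall_subset_closedBall (by linarith)).trans hO)
  refine ⟨min (min (ρ / 2 ^ n₀) (min rm r₂)) (min 1 T),
    lt_min (lt_min (by positivity) (lt_min hrm hr₂)) (lt_min one_pos hT), ?_⟩
  intro R hR hsm
  have hR0 := hR.1
  have hRl := hR.2.trans (min_le_left _ _)
  have hRρ : R ≤ ρ / 2 ^ n₀ := hRl.trans (min_le_left _ _)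
  have hRm : R ≤ rm := hRl.trans ((min_le_right _ _).trans (min_le_left _ _))
  have hRr : R ≤ r₂ := hRl.trans ((min_le_right _ _).trans (min_le_right _ _))
  have hR1 : R ≤ 1 := (hR.2.trans (min_le_right _ _)).trans (min_le_left _ _)
  have hRT : R ≤ T := (hR.2.trans (min_le_right _ _)).trans (min_le_right _ _)
  obtain ⟨s, hs⟩ : ∃ s, s = R / (2 * L) := ⟨_, rfl⟩
  have hs0 : 0 < s := by rw [hs]; positivity
  have hsR : 2 * L * s = R := by rw [hs]; field_simp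
  have hs8 : 8 * s ≤ R := by nlinarith
  have hsρ : s ≤ ρ / 2 ^ n₀ := by linarith
  have hsρ1 : s ≤ ρ := hsρ.trans (div_le_self hρ.le (one_le_pow₀ (by norm_num)))
  obtain ⟨m, hm1, hm2⟩ := exists_nat_pow_near_of_lt_one (x := s / ρ) (y := 1 / 2)
    (div_pos hs0 hρ) ((div_le_one hρ).2 hsρ1) (by norm_num) (by norm_num)
  obtain ⟨n, hn⟩ : ∃ n, n = m + 1 := ⟨_, rfl⟩
  rw [← hn] at hm1
  have hp : (1 / 2 : ℝ) ^ m = 2 * (1 / 2) ^ n := by
    rw [hn, pow_succ]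
    ring
  obtain ⟨rn, hrn⟩ : ∃ rn, rn = ρ / 2 ^ n := ⟨_, rfl⟩
  have hrn' : rn = ρ * (1 / 2) ^ n := by
    rw [hrn, one_div, inv_pow]
    rfl
  have hrn0 : 0 < rn := by rw [hrn]; positivity
  have h1 : rn < s := by
    rw [lt_div_iff₀ hρ] at hm1
    rw [hrn']
    linarith
  have h2 : s ≤ 2 * rn := by
    rw [div_le_iff₀ hρ, hp] at hm2
    rw [hrn']
    linarith
  have hnn₀ : n₀ ≤ n := by
    by_contra hcon
    push Not at hcon
    have h3 : ρ / 2 ^ n₀ ≤ rn := by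
      rw [hrn]
      exact div_le_div_of_nonneg_left hρ.le (by positivity)
        (pow_le_pow_right₀ (by norm_num) hcon.le)
    linarith
  obtain ⟨N, hN⟩ : ∃ N, N = 8 + KV := ⟨_, rfl⟩
  have hN8 : 8 ≤ N := by rw [hN]; linarith
  have hN0 : 0 < N := by linarith
  obtain ⟨r, hr⟩ : ∃ r, r = rn / N := ⟨_, rfl⟩
  have hr0 : 0 < r := by rw [hr]; positivity
  have hrN : N * r = rn := by rw [hr]; field_simp
  have hrR : r ≤ R := by nlinarith
  obtain ⟨δ', hδ'd⟩ : ∃ δ', δ' = min (rn ^ 2) (min (R / 2) (ρ₀ / 2)) := ⟨_, rfl⟩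
  have hδ' : 0 < δ' := by
    rw [hδ'd]
    exact lt_min (by positivity) (lt_min (by positivity) (by positivity))
  have hδ'1 : δ' ≤ rn ^ 2 := by rw [hδ'd]; exact min_le_left _ _
  have hδ'2 : δ' ≤ R / 2 := by rw [hδ'd]; exact (min_le_right _ _).trans (min_le_left _ _)
  have hδ'3 : δ' ≤ ρ₀ / 2 := by rw [hδ'd]; exact (min_le_right _ _).trans (min_le_right _ _)
  refine hReg r hr0 (hrR.trans hRm) (fun t ht x hx => hmol t ht x (by
    rwa [mem_closedBall, dist_eq_norm] at hx) r ⟨hr0, hrR.trans hRr⟩) δ' hδ' ?_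
  intro t ht x hx
  rw [← hN, hrN, hrn]
  refine hDis n hnn₀ x (closedBall_subset_closedBall hδ'3 hx) ?_ t
    ⟨by rw [← hrn]; linarith [ht.1], ht.2⟩
  rw [← hrn]
  intro τ hτ
  have hτ1 : T - R ^ 2 < τ := by
    have h3 : 5 * rn ^ 2 ≤ R ^ 2 := by nlinarith
    linarith [hτ.1]
  have hτ2 : τ < T - c₁ / (16 * L ^ 2) * R ^ 2 := by
    have h3 : c₁ / (16 * L ^ 2) * R ^ 2 ≤ c₁ * rn ^ 2 := by
      have e1 : c₁ / (16 * L ^ 2) * R ^ 2 = c₁ * (s ^ 2 / 4) := by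
        rw [← hsR]
        field_simp
        ring
      rw [e1]
      refine mul_le_mul_of_nonneg_left ?_ hc₁.le
      nlinarith
    linarith [hτ.2]
  have hsub : closedBall x (Λ * rn) ⊆ closedBall a R := by
    refine closedBall_subset_closedBall' ?_
    have h3 := mem_closedBall.1 hx
    have h4 : Λ * rn ≤ Λ * s := mul_le_mul_of_nonneg_left h1.le (by linarith)
    have h5 : Λ * s ≤ R / 2 := by
      rw [← hsR, hL]
      nlinarith
    linarith
  have hτT : τ < T := by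
    have : 0 < c₁ / (16 * L ^ 2) * R ^ 2 := by positivity
    linarith
  have h6 := hsm τ ⟨hτ1, hτ2⟩
  have h7 : η₁ / (4 * L) * R ≤ η₁ * rn := by
    have e1 : η₁ / (4 * L) * R = η₁ * (s / 2) := by
      rw [← hsR]
      field_simp
      ring
    rw [e1]
    exact mul_le_mul_of_nonneg_left (by linarith) hη₁.le
  have hτ0 : 0 < τ := by
    have : R ^ 2 ≤ R := pow_le_of_le_one hR0.le hR1 two_ne_zero
    linarith
  have hsm' := slice_u hu.toLEq ⟨hτ0, hτT⟩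
  exact (setIntegral_mono_set ((om_contL hsm').continuousOn.integrableOn_compact
    (isCompact_closedBall _ _)) (Eventually.of_forall fun y => om_nnL _ _)
    hsub.eventuallyLE).trans (h6.trans h7)

end Pool.Agent.U481.TY
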