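import Pool.Agent.Q85.CL.All
import Pool.Agent.U481.VL.ChainT
import Pool.Agent.U481.EU.Rate

/-!
Critical vortex chains: the scaled dissipation is bounded by a constant which depends only on the
Morrey constant, at all small scales.
-/

set_option autoImplicit false

open MeasureTheory Set Metric Filter Topology
open scoped ContDiff
open H459R3.NS Pool.Agent.W268.NS Pool.Agent.Q67.VD

namespace Pool.Agent.U481.TY

open Pool.Agent.Q85.CC Pool.Agent.Q85.CL Pool.Agent.Q85.VL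

theorem enU (hF : StmFlxL) (hL : StmLEL) : ∀ K : ℝ, 0 < K → ∃ C₁ : ℝ, 0 ≤ C₁ ∧
    ∀ (T E : ℝ) (O : Set V) (u : ℝ → V → V) (p : ℝ → V → ℝ), 0 < T → LSl T E O u p →
    ∀ (T₀ ρ : ℝ) (a : V), 0 ≤ T₀ → T₀ < T → 0 < ρ → closedBall a ρ ⊆ O →
      (∀ t ∈ Ioo T₀ T, MorB K a ρ (om (u t))) →
      ∃ r₁ : ℝ, 0 < r₁ ∧ ∀ t ∈ Ioo ((T₀ + T) / 2) T, ∀ x ∈ closedBall a (ρ / 2),
        ∀ r ∈ Ioc 0 r₁, ∫ τ in Ioo (t - r ^ 2) t, W221.NS.B2 x r (u τ) ≤ C₁ * r := by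
  intro K hK
  obtain ⟨C₀, hC₀, H⟩ := key hF hL K hK
  refine ⟨2 * (1 + 2 * (C₀ * K ^ 2)), by positivity, ?_⟩
  intro T E O u p hT hu T₀ ρ₀ a₀ hT₀ hT₀T hρ₀ hBO hMor
  obtain ⟨A, ρ, hA, hρ, hρT, hρρ, H⟩ := H T E O u p hT hu T₀ K ρ₀ a₀ hT₀ hT₀T hK le_rfl hρ₀ hBO
    hMor
  obtain ⟨n₀, hn₀⟩ := exists_pow_lt_of_lt_one (show 0 < 1 / (A + 1) by positivity)
    (show (3 / 4 : ℝ) < 1 by norm_num)
  refine ⟨ρ / 2 ^ n₀, by positivity, fun t ht x hx r hr => ?_⟩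
  refine all_radii hu.toLEq hρ (by positivity) (by linarith [ht.1]) ht.2 (fun n hn => ?_) hr
  refine (H t ht x hx n).trans (mul_le_mul_of_nonneg_right ?_ (by positivity))
  have h1 : (3 / 4 : ℝ) ^ n ≤ 1 / (A + 1) :=
    (pow_le_pow_of_le_one (by norm_num) (by norm_num) hn).trans hn₀.le
  have h2 : A * (3 / 4 : ℝ) ^ n ≤ 1 := by
    have h3 := mul_le_mul_of_nonneg_left h1 hA
    have h4 : A * (1 / (A + 1)) ≤ 1 := by
      rw [mul_one_div, div_le_one (by positivity)]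
      linarith
    linarith
  linarith

end Pool.Agent.U481.TY
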