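import Pool.Agent.U481.TY.Flx
import Pool.Agent.U481.TY.En

/-!
Critical vortex chains: the scaled dissipation is small at a scale if the integral of the vorticity
is small at this scale, except at the last times.
-/

set_option autoImplicit false

open MeasureTheory Set Metric Filter Topology
open scoped ContDiff
open H459R3.NS Pool.Agent.W268.NS Pool.Agent.Q67.VD

namespace Pool.Agent.U481.TY

open Pool.Agent.Q85.CC Pool.Agent.Q85.CL

/-- A ramp from `0` on `(-∞, m]` to `1` on `[m + w, ∞)`. -/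
noncomputable def ramp (m w τ : ℝ) : ℝ := max 0 (min 1 ((τ - m) / w))

lemma ramp_cont (m w : ℝ) : Continuous (ramp m w) := by
  unfold ramp
  fun_prop

lemma ramp_nn (m w τ : ℝ) : 0 ≤ ramp m w τ := le_max_left _ _

lemma ramp_le (m w τ : ℝ) : ramp m w τ ≤ 1 := max_le zero_le_one (min_le_left _ _)

lemma ramp_zero {m w τ : ℝ} (hw : 0 < w) (h : τ ≤ m) : ramp m w τ = 0 := by
  unfold ramp
  rw [max_eq_left]
  exact (min_le_right _ _).trans (div_nonpos_of_nonpos_of_nonneg (by linarith) hw.le)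

lemma ramp_one {m w τ : ℝ} (hw : 0 < w) (h : m + w ≤ τ) : ramp m w τ = 1 := by
  unfold ramp
  rw [min_eq_left, max_eq_right zero_le_one]
  rw [le_div_iff₀ hw]
  linarith

lemma ramp_int {m w a t : ℝ} (hw : 0 < w) (ham : a ≤ m) (hat : a ≤ t) :
    ∫ τ in a..t, ramp m w τ ≤ max 0 (t - m) := by
  have hi : ∀ x y, IntervalIntegrable (ramp m w) volume x y := fun x y =>
    (ramp_cont m w).intervalIntegrable x y
  rcases le_total t m with h | h
  · have h1 : ∫ τ in a..t, ramp m w τ = ∫ τ in a..t, (0 : ℝ) := by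
      refine intervalIntegral.integral_congr fun τ hτ => ?_
      rw [uIcc_of_le hat] at hτ
      exact ramp_zero hw (hτ.2.trans h)
    rw [h1, intervalIntegral.integral_zero]
    exact le_max_left _ _
  · rw [← intervalIntegral.integral_add_adjacent_intervals (hi a m) (hi m t)]
    have h1 : ∫ τ in a..m, ramp m w τ = ∫ τ in a..m, (0 : ℝ) := by
      refine intervalIntegral.integral_congr fun τ hτ => ?_
      rw [uIcc_of_le ham] at hτ
      exact ramp_zero hw hτ.2
    have h2 : ∫ τ in m..t, ramp m w τ ≤ ∫ τ in m..t, (1 : ℝ) :=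
      intervalIntegral.integral_mono_on h (hi m t) intervalIntegrable_const
        fun τ _ => ramp_le m w τ
    rw [h1, intervalIntegral.integral_zero, zero_add]
    rw [intervalIntegral.integral_const, smul_eq_mul, mul_one] at h2
    exact h2.trans (le_max_right _ _)

set_option maxHeartbeats 3200000 in
theorem dis1 (hF : StmFlxL) (hL : StmLEL) (hVel : StmVelL) (hNear : StmNear) (hDec : StmDecL) :
    ∀ K ε : ℝ, 0 < K → 0 < ε → ∃ Λ η c : ℝ, 1 ≤ Λ ∧ 0 < η ∧ 0 < c ∧ c ≤ 1 ∧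
    ∀ (T E : ℝ) (O : Set V) (u : ℝ → V → V) (p : ℝ → V → ℝ), 0 < T → LSl T E O u p →
    ∀ (T₀ ρ₀ : ℝ) (a₀ : V), 0 ≤ T₀ → T₀ < T → 0 < ρ₀ → closedBall a₀ ρ₀ ⊆ O →
      (∀ t ∈ Ioo T₀ T, MorB K a₀ ρ₀ (om (u t))) →
      ∃ (ρ : ℝ) (n₀ : ℕ), 0 < ρ ∧ ∀ n, n₀ ≤ n → ∀ x ∈ closedBall a₀ (ρ₀ / 2),
        (∀ τ ∈ Ioo (T - 5 * (ρ / 2 ^ n) ^ 2) (T - c * (ρ / 2 ^ n) ^ 2),
          ∫ y in closedBall x (Λ * (ρ / 2 ^ n)), om (u τ) y ≤ η * (ρ / 2 ^ n)) →
        ∀ t ∈ Ioo (T - (ρ / 2 ^ n) ^ 2) T,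
          ∫ τ in Ioo (t - (ρ / 2 ^ n) ^ 2) t, W221.NS.B2 x (ρ / 2 ^ n) (u τ)
            ≤ ε * (ρ / 2 ^ n) := by
  intro K ε hK hε
  obtain ⟨D, hD, hcut⟩ := cut2
  obtain ⟨C₁, hC₁, hEn⟩ := enU hF hL K hK
  obtain ⟨δ, hδd⟩ : ∃ δ, δ = ε / (64 * (C₁ + 1)) := ⟨_, rfl⟩
  have hδ : 0 < δ := by rw [hδd]; positivity
  have hδC : δ * (16 * C₁) ≤ ε / 4 := by
    rw [hδd, div_mul_eq_mul_div, div_le_div_iff₀ (by positivity) (by norm_num)]
    nlinarith
  obtain ⟨C₀, hC₀, hF⟩ := hF δ D K hδ hD hK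
  obtain ⟨M, hM⟩ : ∃ M, M = C₀ * K ^ 2 := ⟨_, rfl⟩
  have hM0 : 0 ≤ M := by rw [hM]; positivity
  obtain ⟨c, hcd⟩ : ∃ c, c = min (1 / 3) (ε / (12 * (M + 1))) := ⟨_, rfl⟩
  have hc : 0 < c := by rw [hcd]; exact lt_min (by norm_num) (by positivity)
  have hc3 : c ≤ 1 / 3 := by rw [hcd]; exact min_le_left _ _
  have hcM : 3 * c * M ≤ ε / 4 := by
    have h1 : c ≤ ε / (12 * (M + 1)) := by rw [hcd]; exact min_le_right _ _
    rw [le_div_iff₀ (by positivity)] at h1
    linarith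
  obtain ⟨Λ, η, hΛ, hη, hG⟩ := flx2 hVel hNear hDec K D δ (ε / 16) hK hD hδ (by positivity)
  refine ⟨Λ, η, 2 * c, hΛ, hη, by positivity, by linarith, ?_⟩
  intro T E O u p hT hu T₀ ρ₀ a₀ hT₀ hT₀T hρ₀ hBO hMor
  obtain ⟨r₁, hr₁, hEn⟩ := hEn T E O u p hT hu T₀ ρ₀ a₀ hT₀ hT₀T hρ₀ hBO hMor
  obtain ⟨hLE, hBern⟩ := hL T O u p hu.toLEq
  have hOm : MeasurableSet O := hu.openO.measurableSet
  obtain ⟨ρ, hρdef⟩ : ∃ ρ, ρ = min (min (ρ₀ / 2) r₁) (min 1 (√((T - T₀) / 16))) := ⟨_, rfl⟩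
  have hq : 0 < (T - T₀) / 16 := by linarith
  have hρ : 0 < ρ := by
    rw [hρdef]
    exact lt_min (lt_min (by positivity) hr₁) (lt_min one_pos (Real.sqrt_pos.2 hq))
  have hρρ₀ : ρ ≤ ρ₀ / 2 := by rw [hρdef]; exact (min_le_left _ _).trans (min_le_left _ _)
  have hρr₁ : ρ ≤ r₁ := by rw [hρdef]; exact (min_le_left _ _).trans (min_le_right _ _)
  have hρ1 : ρ ≤ 1 := by rw [hρdef]; exact (min_le_right _ _).trans (min_le_left _ _)
  have hρT : ρ ^ 2 ≤ (T - T₀) / 16 := by
    have h1 : ρ ≤ √((T - T₀) / 16) := by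
      rw [hρdef]; exact (min_le_right _ _).trans (min_le_right _ _)
    calc ρ ^ 2 ≤ √((T - T₀) / 16) ^ 2 := pow_le_pow_left₀ hρ.le h1 2
      _ = _ := Real.sq_sqrt hq.le
  have hEn0 : 0 ≤ E := by
    have h1 : (T₀ + T) / 2 ∈ Ioo 0 T := ⟨by linarith, by linarith⟩
    exact (integral_nonneg fun y => nsq_nn _ _).trans (hu.en _ h1)
  obtain ⟨CF, hCF, hF⟩ := hF K (√(E / ρ ^ 3)) ρ hK le_rfl (Real.sqrt_nonneg _) hρ hρ1
  obtain ⟨n₁, CG, hn₁, hCG, hG⟩ := hG (√(E / ρ ^ 3)) ρ (Real.sqrt_nonneg _) hρ hρ1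
  obtain ⟨C, hCd⟩ : ∃ C, C = CF + CG := ⟨_, rfl⟩
  have hC : 0 ≤ C := by rw [hCd]; positivity
  obtain ⟨P₀, hP₀⟩ : ∃ P₀, P₀ = ∫ z in Ioo 0 T ×ˢ O, |p z.1 z.2| := ⟨_, rfl⟩
  have hP₀n : 0 ≤ P₀ := by rw [hP₀]; exact integral_nonneg fun z => abs_nonneg _
  obtain ⟨C', hC'⟩ : ∃ C', C' = 4 * C + 2 * C * E + C * P₀ := ⟨_, rfl⟩
  have hC'n : 0 ≤ C' := by rw [hC']; positivity
  obtain ⟨n₂, hn₂⟩ := exists_pow_lt_of_lt_one (show 0 < ε / (4 * (C' + 1)) by positivity)
    (show (1 / 2 : ℝ) < 1 by norm_num)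
  refine ⟨ρ, max n₁ n₂, hρ, ?_⟩
  have hct := (W335.MD.t_CT Pool.Agent.W333.MD.t_PCONT) 0 T u hu.smooth_u
  have hB2c : ∀ x s, ContinuousOn (fun τ => W221.NS.B2 x s (u τ)) (Ioo 0 T) := fun x s =>
    (hct.1 x s).2
  intro n hn x hx hsmall t ht
  have hnn₁ : n₁ ≤ n := (le_max_left _ _).trans hn
  have hnn₂ : n₂ ≤ n := (le_max_right _ _).trans hn
  have hn6 : 6 ≤ n := hn₁.trans hnn₁
  have hxO : closedBall x ρ ⊆ O := by
    refine (closedBall_subset_closedBall' ?_).trans hBO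
    have := mem_closedBall.1 hx
    linarith
  -- the pressure
  obtain ⟨Pf, hPf⟩ : ∃ Pf : ℝ → ℝ, Pf = fun τ => ∫ y in ball x ρ, |p τ y| := ⟨_, rfl⟩
  have hPc : ContinuousOn Pf (Ioo 0 T) := by
    rw [hPf]
    exact Pool.Agent.W333.MD.t_PCONT 0 T (fun τ y => |p τ y|) x ρ
      (hu.smooth_p.continuousOn.abs)
  have hPn : ∀ τ, 0 ≤ Pf τ := fun τ => by
    rw [hPf]; exact integral_nonneg fun y => abs_nonneg _
  obtain ⟨I, hI⟩ : ∃ I : ℝ → ℝ, I = fun s => ∫ τ in Ioo (t - s ^ 2) t, W221.NS.B2 x s (u τ) :=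
    ⟨_, rfl⟩
  obtain ⟨r, hr⟩ : ∃ r, r = ρ / 2 ^ n := ⟨_, rfl⟩
  have hr0 : 0 < r := by rw [hr]; positivity
  have hr64 : 64 * r ≤ ρ := by
    rw [hr]
    have h1 : (2 : ℝ) ^ 6 ≤ 2 ^ n := pow_le_pow_right₀ (by norm_num) hn6
    rw [mul_div_assoc', div_le_iff₀ (by positivity)]
    nlinarith
  have hr1 : r ≤ 1 := by linarith
  rw [← hr] at ht hsmall ⊢
  have hr2 : 0 < r ^ 2 := by positivity
  have hr4 : r ^ 2 ≤ ρ ^ 2 := pow_le_pow_left₀ hr0.le (by linarith) 2
  have htT₁ : (T₀ + T) / 2 < t := by linarith [ht.1]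
  have hrn : ∀ n : ℕ, 0 < ρ / 2 ^ n := fun n => by positivity
  have hrle : ∀ n : ℕ, ρ / 2 ^ n ≤ ρ := fun n => div_le_self hρ.le (one_le_pow₀ (by norm_num))
  -- windows
  have hwin : ∀ s a, 0 < s → s ≤ ρ → t - s ^ 2 ≤ a → a ≤ t →
      ∫ τ in a..t, W221.NS.B2 x s (u τ) ≤ C₁ * s := by
    intro s a hs hsρ hsa hat
    have hs2 : s ^ 2 ≤ ρ ^ 2 := pow_le_pow_left₀ hs.le hsρ 2
    refine le_trans ?_ (hEn t ⟨htT₁, ht.2⟩ x hx s ⟨hs, hsρ.trans hρr₁⟩)
    rw [intervalIntegral.integral_of_le hat, integral_Ioc_eq_integral_Ioo]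
    refine setIntegral_mono_set ?_ (Eventually.of_forall fun τ => B2_nn _ _ _)
      (Ioo_subset_Ioo_left hsa).eventuallyLE
    refine ((hB2c x s).mono (t := Icc (t - s ^ 2) t) ?_).integrableOn_Icc.mono_set
      Ioo_subset_Icc_self
    intro τ hτ
    exact ⟨by linarith [hτ.1], hτ.2.trans_lt ht.2⟩
  obtain ⟨a, ha⟩ : ∃ a, a = t - 4 * r ^ 2 := ⟨_, rfl⟩
  have haT : T₀ < a := by rw [ha]; linarith [ht.1]
  have haT5 : T - 5 * r ^ 2 < a := by rw [ha]; linarith [ht.1]
  have hat : a ≤ t := by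
    rw [ha]
    have := sq_nonneg r
    linarith
  have hsub : Icc a t ⊆ Ioo 0 T := fun τ hτ => ⟨by linarith [hτ.1], hτ.2.trans_lt ht.2⟩
  have hsub2 : Icc a t ⊆ Ioo T₀ T := fun τ hτ => ⟨by linarith [hτ.1], hτ.2.trans_lt ht.2⟩
  obtain ⟨φ, hφs, hφc, hφ0, hφ1, hφe, hφz, hφp, hφl⟩ := hcut x r hr0
  have hts : tsupport φ ⊆ O := by
    refine (closure_minimal ?_ isClosed_closedBall).trans
      ((closedBall_subset_closedBall (show 2 * r ≤ ρ by linarith)).trans hxO)
    intro y hy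
    rw [mem_closedBall, dist_eq_norm]
    exact hφz y hy
  have hcr : 0 < c * r ^ 2 := by positivity
  obtain ⟨θ, hθ⟩ : ∃ θ : ℝ → ℝ, θ = fun τ => ε / 16 + M * ramp (T - 3 * (c * r ^ 2)) (c * r ^ 2) τ :=
    ⟨_, rfl⟩
  have hθc : Continuous θ := by
    rw [hθ]
    exact continuous_const.add (continuous_const.mul (ramp_cont _ _))
  obtain ⟨R, hR⟩ : ∃ R : ℝ → ℝ, R = fun τ => δ * (∑ j ∈ Finset.range (n - 2),
      (1 / 4 : ℝ) ^ j * W221.NS.B2 x (2 ^ (j + 3) * r) (u τ))
      + (θ τ / r + C * (1 + r ^ 2 * (Pf τ + E / 2))) := ⟨_, rfl⟩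
  have hpt : ∀ τ ∈ Icc a t,
      |∫ y, W221.NS.nsq (u τ) y * lap φ y|
        + |2 * ∫ y, (p τ y + W221.NS.nsq (u τ) y / 2) * W221.NS.adv (u τ) φ y|
        + (∫ y in closedBall x (2 * r), W221.NS.nsq (u τ) y) / r ^ 2 ≤ R τ := by
    intro τ hτ
    have hτI := hsub hτ
    have hsm := sm_slice hu.toLEq hτI
    have hpsm := sp_slice hu.toLEq hτI
    have hnc : IntegrableOn (W221.NS.nsq (u τ)) (closedBall x ρ) :=
      (nsq_contL hsm).continuousOn.integrableOn_compact (isCompact_closedBall _ _)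
    have henb : ∫ z in closedBall x ρ, W221.NS.nsq (u τ) z ≤ E :=
      (setIntegral_mono_set (hu.en_int τ hτI) (Eventually.of_forall fun y => nsq_nn _ _)
        hxO.eventuallyLE).trans (hu.en τ hτI)
    have hen : √((∫ z in closedBall x ρ, W221.NS.nsq (u τ) z) / ρ ^ 3) ≤ √(E / ρ ^ 3) :=
      Real.sqrt_le_sqrt (div_le_div_of_nonneg_right henb (by positivity))
    have hMo : MorB K x ρ (om (u τ)) := by
      intro y s hs hys
      refine hMor τ (hsub2 hτ) y s hs ?_
      have h1 : ‖y - a₀‖ ≤ ‖y - x‖ + ‖x - a₀‖ := by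
        have e1 : y - a₀ = (y - x) + (x - a₀) := by abel
        rw [e1]
        exact norm_add_le _ _
      have h2 : ‖x - a₀‖ ≤ ρ₀ / 2 := by
        rw [← dist_eq_norm]
        exact mem_closedBall.1 hx
      linarith
    have hqm : ContDiff ℝ ∞ (fun y => p τ y + W221.NS.nsq (u τ) y / 2) := by
      refine hpsm.add (ContDiff.div_const ?_ 2)
      unfold W221.NS.nsq
      exact ContDiff.sum fun i _ => (hsm i).pow 2
    have hQ : ∫ y in closedBall x ρ, |p τ y + W221.NS.nsq (u τ) y / 2 - 0| ≤ Pf τ + E / 2 := by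
      have i1 : IntegrableOn (fun y => |p τ y|) (closedBall x ρ) :=
        hpsm.continuous.abs.continuousOn.integrableOn_compact (isCompact_closedBall _ _)
      calc ∫ y in closedBall x ρ, |p τ y + W221.NS.nsq (u τ) y / 2 - 0|
          ≤ ∫ y in closedBall x ρ, (|p τ y| + W221.NS.nsq (u τ) y / 2) := by
            refine integral_mono_of_nonneg (Eventually.of_forall fun y => abs_nonneg _)
              (i1.add (hnc.div_const 2)) (Eventually.of_forall fun y => ?_)
            show |p τ y + W221.NS.nsq (u τ) y / 2 - 0| ≤ |p τ y| + W221.NS.nsq (u τ) y / 2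
            rw [sub_zero]
            refine (abs_add_le _ _).trans ?_
            rw [abs_of_nonneg (div_nonneg (nsq_nn (u τ) y) (by norm_num))]
        _ = (∫ y in closedBall x ρ, |p τ y|)
            + (∫ y in closedBall x ρ, W221.NS.nsq (u τ) y) / 2 := by
            rw [integral_add i1 (hnc.div_const 2), integral_div]
        _ ≤ Pf τ + E / 2 := by
            rw [hPf, setIntegral_congr_set (closed_ball_ae x ρ)]
            linarith
    have hQ0 : 0 ≤ 1 + r ^ 2 * (Pf τ + E / 2) := by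
      have := hPn τ
      positivity
    have hrp := ramp_nn (T - 3 * (c * r ^ 2)) (c * r ^ 2) τ
    rcases lt_or_ge τ (T - 2 * c * r ^ 2) with hcase | hcase
    · have h1 := hG (u τ) (fun y => p τ y + W221.NS.nsq (u τ) y / 2) 0 (Pf τ + E / 2) x hsm hqm
        (fun y hy => hu.divfree τ hτI y (hxO (ball_subset_closedBall hy)))
        (fun y hy => hBern τ hτI y (hxO (ball_subset_closedBall hy))) hMo hen hQ n hnn₁
        (by rw [← hr]; exact hsmall τ ⟨haT5.trans_le hτ.1, hcase⟩) φ hφs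
        (by rw [← hr]; exact hφz) (by rw [← hr]; exact hφp) (by rw [← hr]; exact hφl)
      rw [← hr] at h1
      have h2 : ε / 16 / r ≤ θ τ / r := by
        refine div_le_div_of_nonneg_right ?_ hr0.le
        rw [hθ]
        exact le_add_of_nonneg_right (mul_nonneg hM0 hrp)
      have h3 : CG * (1 + r ^ 2 * (Pf τ + E / 2)) ≤ C * (1 + r ^ 2 * (Pf τ + E / 2)) :=
        mul_le_mul_of_nonneg_right (by rw [hCd]; linarith) hQ0
      rw [hR]
      linarith
    · have h1 := hF (u τ) (fun y => p τ y + W221.NS.nsq (u τ) y / 2) 0 (Pf τ + E / 2) x hsm hqm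
        (fun y hy => hu.divfree τ hτI y (hxO (ball_subset_closedBall hy)))
        (fun y hy => hBern τ hτI y (hxO (ball_subset_closedBall hy))) hMo hen hQ n hn6 φ hφs
        (by rw [← hr]; exact hφz) (by rw [← hr]; exact hφp) (by rw [← hr]; exact hφl)
      rw [← hr, ← hM] at h1
      have h2 : M / r ≤ θ τ / r := by
        refine div_le_div_of_nonneg_right ?_ hr0.le
        rw [hθ]
        show M ≤ ε / 16 + M * ramp (T - 3 * (c * r ^ 2)) (c * r ^ 2) τ
        rw [ramp_one hcr (by linarith)]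
        linarith
      have h3 : CF * (1 + r ^ 2 * (Pf τ + E / 2)) ≤ C * (1 + r ^ 2 * (Pf τ + E / 2)) :=
        mul_le_mul_of_nonneg_right (by rw [hCd]; linarith) hQ0
      rw [hR]
      linarith
  have hRc : ContinuousOn R (Icc a t) := by
    rw [hR]
    apply ContinuousOn.add
    · apply ContinuousOn.mul continuousOn_const
      exact continuousOn_finsetSum _ fun j _ =>
        continuousOn_const.mul ((hB2c x _).mono hsub)
    · apply ContinuousOn.add (hθc.div_const r).continuousOn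
      apply ContinuousOn.mul continuousOn_const
      apply ContinuousOn.add continuousOn_const
      apply ContinuousOn.mul continuousOn_const
      exact (hPc.mono hsub).add continuousOn_const
  have hts := time_step (a := a) (t := t) (r := r) hr0 ha
    (Y := fun τ => ∫ y, W221.NS.nsq (u τ) y * φ y)
    (D := fun τ => W221.NS.B2 x r (u τ)) (R := R)
    (fun τ hτ => hLE φ hφs hφc hts τ (hsub hτ)) ((hB2c x r).mono hsub) hRc
    (fun τ hτ => by
      have hτI := hsub hτ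
      have hsm := sm_slice hu.toLEq hτI
      have h1 := hpt τ hτ
      have h2 : 0 ≤ (∫ y in closedBall x (2 * r), W221.NS.nsq (u τ) y) / r ^ 2 :=
        div_nonneg (integral_nonneg fun y => nsq_nn _ _) (by positivity)
      have h3 : W221.NS.B2 x r (u τ) ≤ ∫ y, W221.NS.gsq (u τ) y * φ y := by
        unfold W221.NS.B2
        have hint : Integrable (fun y => W221.NS.gsq (u τ) y * φ y) :=
          (((gsq_contL hsm).mul hφs.continuous)).integrable_of_hasCompactSupport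
            (hφc.mul_left)
        calc ∫ y in ball x r, W221.NS.gsq (u τ) y
            = ∫ y in ball x r, W221.NS.gsq (u τ) y * φ y := by
              refine setIntegral_congr_fun measurableSet_ball fun y hy => ?_
              show W221.NS.gsq (u τ) y = W221.NS.gsq (u τ) y * φ y
              rw [hφe y (ball_subset_closedBall hy), mul_one]
          _ ≤ ∫ y, W221.NS.gsq (u τ) y * φ y :=
              setIntegral_le_integral hint
                (Eventually.of_forall fun y => mul_nonneg (gsq_nn _ _) (hφ0 y))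
      have h4 := le_abs_self (∫ y, W221.NS.nsq (u τ) y * lap φ y)
      have h5 := le_abs_self
        (2 * ∫ y, (p τ y + W221.NS.nsq (u τ) y / 2) * W221.NS.adv (u τ) φ y)
      linarith)
    (fun τ hτ => integral_nonneg fun y => mul_nonneg (nsq_nn _ _) (hφ0 y))
    (fun τ hτ => by
      have hτI := hsub hτ
      have hsm := sm_slice hu.toLEq hτI
      have h1 := hpt τ hτ
      have h2 := abs_nonneg (∫ y, W221.NS.nsq (u τ) y * lap φ y)
      have h3 := abs_nonneg
        (2 * ∫ y, (p τ y + W221.NS.nsq (u τ) y / 2) * W221.NS.adv (u τ) φ y)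
      have h4 : (∫ y in closedBall x (2 * r), W221.NS.nsq (u τ) y) / r ^ 2 ≤ R τ := by
        linarith
      rw [div_le_iff₀ (by positivity)] at h4
      have h5 : ∫ y, W221.NS.nsq (u τ) y * φ y
          ≤ ∫ y in closedBall x (2 * r), W221.NS.nsq (u τ) y := by
        rw [← integral_indicator measurableSet_closedBall]
        refine integral_mono_of_nonneg
          (Eventually.of_forall fun y => mul_nonneg (nsq_nn _ _) (hφ0 y)) ?_
          (Eventually.of_forall fun y => ?_)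
        · rw [integrable_indicator_iff measurableSet_closedBall]
          exact (nsq_contL hsm).continuousOn.integrableOn_compact (isCompact_closedBall x _)
        · show W221.NS.nsq (u τ) y * φ y
            ≤ (closedBall x (2 * r)).indicator (W221.NS.nsq (u τ)) y
          by_cases hy : y ∈ closedBall x (2 * r)
          · rw [indicator_of_mem hy]
            have := mul_le_mul_of_nonneg_left (hφ1 y) (nsq_nn (u τ) y)
            linarith
          · rw [indicator_of_notMem hy]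
            have h0 : φ y = 0 := by
              by_contra hcon
              apply hy
              rw [mem_closedBall, dist_eq_norm]
              exact hφz y hcon
            rw [h0, mul_zero]
      linarith)
    (fun τ hτ => B2_nn _ _ _)
  refine hts.trans ?_
  have hsj : ∀ j ∈ Finset.range (n - 2), 2 ^ (j + 3) * r ≤ ρ ∧ 0 < 2 ^ (j + 3) * r := by
    intro j hj
    rw [Finset.mem_range] at hj
    rw [hr, pow_id (by omega)]
    exact ⟨hrle _, hrn _⟩
  have i1 : ∀ j ∈ Finset.range (n - 2), IntervalIntegrable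
      (fun τ => (1 / 4 : ℝ) ^ j * W221.NS.B2 x (2 ^ (j + 3) * r) (u τ)) volume a t :=
    fun j _ => (continuousOn_const.mul ((hB2c x _).mono hsub)).intervalIntegrable_of_Icc hat
  have i2 : IntervalIntegrable (fun τ => δ * (∑ j ∈ Finset.range (n - 2),
      (1 / 4 : ℝ) ^ j * W221.NS.B2 x (2 ^ (j + 3) * r) (u τ))) volume a t := by
    apply IntervalIntegrable.const_mul
    exact (continuousOn_finsetSum _ fun j _ =>
        continuousOn_const.mul ((hB2c x _).mono hsub)).intervalIntegrable_of_Icc hat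
  have i4 : IntervalIntegrable Pf volume a t := (hPc.mono hsub).intervalIntegrable_of_Icc hat
  have i5 : IntervalIntegrable (fun τ => θ τ / r) volume a t :=
    (hθc.div_const r).intervalIntegrable a t
  have i6 : IntervalIntegrable (fun τ => C * (1 + r ^ 2 * (Pf τ + E / 2))) volume a t := by
    refine ContinuousOn.intervalIntegrable_of_Icc hat ?_
    apply ContinuousOn.mul continuousOn_const
    apply ContinuousOn.add continuousOn_const
    apply ContinuousOn.mul continuousOn_const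
    exact (hPc.mono hsub).add continuousOn_const
  have e1 : ∫ τ in a..t, R τ = δ * (∑ j ∈ Finset.range (n - 2),
      (1 / 4 : ℝ) ^ j * ∫ τ in a..t, W221.NS.B2 x (2 ^ (j + 3) * r) (u τ))
      + ((∫ τ in a..t, θ τ / r) + ∫ τ in a..t, C * (1 + r ^ 2 * (Pf τ + E / 2))) := by
    rw [hR, intervalIntegral.integral_add i2 (i5.add i6), intervalIntegral.integral_const_mul,
      intervalIntegral.integral_finsetSum i1, intervalIntegral.integral_add i5 i6]
    congr 2
    refine Finset.sum_congr rfl fun j _ => ?_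
    rw [intervalIntegral.integral_const_mul]
  have e2 : ∑ j ∈ Finset.range (n - 2),
      (1 / 4 : ℝ) ^ j * (∫ τ in a..t, W221.NS.B2 x (2 ^ (j + 3) * r) (u τ))
      ≤ 16 * C₁ * r := by
    have h1 : ∀ j ∈ Finset.range (n - 2),
        (1 / 4 : ℝ) ^ j * (∫ τ in a..t, W221.NS.B2 x (2 ^ (j + 3) * r) (u τ))
        ≤ 8 * C₁ * r * (1 / 2 : ℝ) ^ j := by
      intro j hj
      have h2 : ∫ τ in a..t, W221.NS.B2 x (2 ^ (j + 3) * r) (u τ) ≤ C₁ * (2 ^ (j + 3) * r) := by
        refine hwin _ a (hsj j hj).2 (hsj j hj).1 ?_ hat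
        rw [ha]
        have h1 : (2 : ℝ) ≤ 2 ^ (j + 3) := by
          have : (2 : ℝ) ^ 1 ≤ 2 ^ (j + 3) := pow_le_pow_right₀ (by norm_num) (by omega)
          linarith
        have h2 : 2 * r ≤ 2 ^ (j + 3) * r := mul_le_mul_of_nonneg_right h1 hr0.le
        nlinarith
      refine (mul_le_mul_of_nonneg_left h2 (by positivity)).trans (le_of_eq ?_)
      have e5 : (1 / 4 : ℝ) ^ j = (1 / 2) ^ j * (1 / 2) ^ j := by
        rw [← mul_pow]
        norm_num
      have e6 : (1 / 2 : ℝ) ^ j * 2 ^ (j + 3) = 8 := by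
        rw [pow_add, ← mul_assoc, ← mul_pow]
        norm_num
      calc (1 / 4 : ℝ) ^ j * (C₁ * (2 ^ (j + 3) * r))
          = C₁ * r * (1 / 2) ^ j * ((1 / 2) ^ j * 2 ^ (j + 3)) := by rw [e5]; ring
        _ = _ := by rw [e6]; ring
    refine (Finset.sum_le_sum h1).trans ?_
    rw [← Finset.mul_sum]
    have h3 := mul_le_mul_of_nonneg_left (geo_half (n - 2)) (by positivity : 0 ≤ 8 * C₁ * r)
    linarith
  have e3 : ∫ τ in a..t, θ τ / r ≤ ε / 4 * r + 3 * c * M * r := by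
    rw [hθ]
    have g0 : ∀ τ, (ε / 16 + M * ramp (T - 3 * (c * r ^ 2)) (c * r ^ 2) τ) / r
        = ε / 16 / r + M / r * ramp (T - 3 * (c * r ^ 2)) (c * r ^ 2) τ := fun τ => by ring
    simp_rw [g0]
    rw [intervalIntegral.integral_add intervalIntegrable_const
      (((ramp_cont _ _).intervalIntegrable _ _).const_mul _),
      intervalIntegral.integral_const, intervalIntegral.integral_const_mul, smul_eq_mul]
    have g1 := ramp_int (m := T - 3 * (c * r ^ 2)) (w := c * r ^ 2) (a := a) (t := t) hcr (by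
      rw [ha]
      nlinarith [ht.2]) hat
    have g2 : max 0 (t - (T - 3 * (c * r ^ 2))) ≤ 3 * (c * r ^ 2) :=
      max_le (by positivity) (by linarith [ht.2])
    have g3 : M / r * (∫ τ in a..t, ramp (T - 3 * (c * r ^ 2)) (c * r ^ 2) τ)
        ≤ M / r * (3 * (c * r ^ 2)) := mul_le_mul_of_nonneg_left (g1.trans g2) (by positivity)
    have g4 : M / r * (3 * (c * r ^ 2)) = 3 * c * M * r := by
      field_simp
    have g5 : (t - a) * (ε / 16 / r) = ε / 4 * r := by
      rw [ha]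
      field_simp
      ring
    rw [g5]
    linarith
  have e4 : ∫ τ in a..t, C * (1 + r ^ 2 * (Pf τ + E / 2)) ≤ C' * r ^ 2 := by
    have g0 : ∀ τ, C * (1 + r ^ 2 * (Pf τ + E / 2))
        = (C * (1 + r ^ 2 * (E / 2))) + C * r ^ 2 * Pf τ := fun τ => by ring
    simp_rw [g0]
    rw [intervalIntegral.integral_add intervalIntegrable_const (i4.const_mul _),
      intervalIntegral.integral_const, intervalIntegral.integral_const_mul, smul_eq_mul]
    have g1 : ∫ τ in a..t, Pf τ ≤ P₀ := by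
      rw [intervalIntegral.integral_of_le hat, integral_Ioc_eq_integral_Ioo, hPf, hP₀]
      exact int_prod_le (g := fun τ y => |p τ y|) hOm hu.prs.abs (fun τ y => abs_nonneg _)
        (by linarith) ht.2.le
        measurableSet_ball (ball_subset_closedBall.trans hxO)
    have g2 : C * r ^ 2 * (∫ τ in a..t, Pf τ) ≤ C * r ^ 2 * P₀ :=
      mul_le_mul_of_nonneg_left g1 (by positivity)
    have g5 : t - a = 4 * r ^ 2 := by rw [ha]; ring
    rw [g5]
    have g6 : 4 * r ^ 2 * (C * (1 + r ^ 2 * (E / 2)))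
        = (4 * C) * r ^ 2 + (2 * C * E) * (r ^ 2 * r ^ 2) := by
      ring
    have g7 : r ^ 2 * r ^ 2 ≤ 1 * r ^ 2 := by
      refine mul_le_mul_of_nonneg_right ?_ (sq_nonneg r)
      exact pow_le_one₀ hr0.le hr1
    have g8 : (2 * C * E) * (r ^ 2 * r ^ 2) ≤ (2 * C * E) * (1 * r ^ 2) :=
      mul_le_mul_of_nonneg_left g7 (by positivity)
    rw [g6, hC']
    linarith
  have e5 : C' * r ^ 2 ≤ ε / 4 * r := by
    have h1 : r ≤ ε / (4 * (C' + 1)) := by
      have h2 : r = ρ * (1 / 2) ^ n := by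
        rw [hr, one_div, inv_pow]
        rfl
      have h3 : (1 / 2 : ℝ) ^ n ≤ (1 / 2) ^ n₂ :=
        pow_le_pow_of_le_one (by norm_num) (by norm_num) hnn₂
      rw [h2]
      calc ρ * (1 / 2) ^ n ≤ 1 * (1 / 2) ^ n₂ := by gcongr
        _ ≤ _ := by rw [one_mul]; exact hn₂.le
    rw [le_div_iff₀ (by positivity)] at h1
    have h2 : C' * r ≤ ε / 4 := by linarith
    calc C' * r ^ 2 = (C' * r) * r := by ring
      _ ≤ ε / 4 * r := mul_le_mul_of_nonneg_right h2 hr0.le
  have e6 : δ * (∑ j ∈ Finset.range (n - 2),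
      (1 / 4 : ℝ) ^ j * ∫ τ in a..t, W221.NS.B2 x (2 ^ (j + 3) * r) (u τ)) ≤ ε / 4 * r := by
    refine (mul_le_mul_of_nonneg_left e2 hδ.le).trans ?_
    calc δ * (16 * C₁ * r) = δ * (16 * C₁) * r := by ring
      _ ≤ ε / 4 * r := mul_le_mul_of_nonneg_right hδC hr0.le
  have e7 : 3 * c * M * r ≤ ε / 4 * r := mul_le_mul_of_nonneg_right hcM hr0.le
  rw [e1]
  linarith

end Pool.Agent.U481.TY
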