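import Pool.Agent.U481.TY.Master
import Pool.Agent.Q284.CL.Vel
import Pool.Agent.Q81.CL.Dec

/-!
Critical vortex chains: the terms of the local energy identity at one time are small if the integral
of the vorticity is small at one scale.
-/

set_option autoImplicit false

open MeasureTheory Set Metric Filter Topology
open scoped ContDiff
open H459R3.NS Pool.Agent.W268.NS Pool.Agent.Q67.VD
open Pool.Agent.Q85.CC Pool.Agent.Q85.CL Pool.Agent.Q16.CC Pool.Agent.Q16.CL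

namespace Pool.Agent.U481.TY

/-- the arithmetic at the end -/
theorem finish2 {a b CV δ δ' ε₁ C₁ c2 r Q' L : ℝ} (ha : 0 ≤ a) (hb : 0 ≤ b) (hCV : 0 < CV)
    (hr : 0 < r) (hδ' : 0 ≤ δ') (hδ : δ' * (a + 48 * b * CV) = δ / 2) (hε₁ : 0 ≤ ε₁) (hC₁ : 0 ≤ C₁)
    (hc2 : 0 ≤ c2) {F B X : ℕ → ℝ}
    (hF0 : ∀ j, 0 ≤ F j) (hFB : ∀ j, F j ≤ 2 * B j) {N j₁ : ℕ} (hN : 0 < N)
    (hX : ∀ j, X j = δ' * F j + (if j ≤ j₁ then ε₁ else C₁) / (2 ^ j * r) + c2)
    (hL : L ≤ a * X 0 + b * (48 * CV * (∑ j ∈ Finset.range N, (1 / 4 : ℝ) ^ j * X j) + Q')) :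
    L ≤ δ * (∑ j ∈ Finset.range N, (1 / 4 : ℝ) ^ j * B j)
      + ((a + 96 * b * CV) * ε₁ + 96 * b * CV * (C₁ * (1 / 2) ^ j₁)) / r
      + (a + 96 * b * CV) * c2 + b * Q' := by
  obtain ⟨S1, hS1⟩ : ∃ S1 : ℝ, S1 = ∑ j ∈ Finset.range N, (1 / 4 : ℝ) ^ j * F j := ⟨_, rfl⟩
  obtain ⟨p, hp⟩ : ∃ p : ℝ, p = (1 / 2) ^ j₁ := ⟨_, rfl⟩
  have hp0 : 0 ≤ p := by rw [hp]; positivity
  have hg : ∑ j ∈ Finset.range N, (1 / 4 : ℝ) ^ j ≤ 2 := by
    have h2 : ∑ j ∈ Finset.range N, (1 / 4 : ℝ) ^ j ≤ ∑ j ∈ Finset.range N, (1 / 2 : ℝ) ^ j :=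
      Finset.sum_le_sum fun j _ => pow_le_pow_left₀ (by norm_num) (by norm_num) j
    exact h2.trans (sum_geometric_two_le _)
  have hsum : ∑ j ∈ Finset.range N, (1 / 4 : ℝ) ^ j * X j
      ≤ δ' * S1 + 2 * ((ε₁ + C₁ * p) / r + c2) := by
    have h1 : ∀ j ∈ Finset.range N, (1 / 4 : ℝ) ^ j * X j
        ≤ δ' * ((1 / 4 : ℝ) ^ j * F j) + (1 / 4 : ℝ) ^ j * ((ε₁ + C₁ * p) / r + c2) := by
      intro j _
      rw [hX]
      have h2 : (if j ≤ j₁ then ε₁ else C₁) / (2 ^ j * r) ≤ (ε₁ + C₁ * p) / r := by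
        have h2j : (1 : ℝ) ≤ 2 ^ j := one_le_pow₀ (by norm_num)
        rw [div_mul_eq_div_div]
        refine div_le_div_of_nonneg_right ?_ hr.le
        split_ifs with h
        · have h3 : ε₁ / 2 ^ j ≤ ε₁ := div_le_self hε₁ h2j
          have h4 : 0 ≤ C₁ * p := by positivity
          linarith
        · have h3 : C₁ / 2 ^ j ≤ C₁ * p := by
            rw [div_eq_mul_inv]
            refine mul_le_mul_of_nonneg_left ?_ hC₁
            rw [hp, ← inv_pow, ← one_div]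
            exact pow_le_pow_of_le_one (by norm_num) (by norm_num) (by omega)
          linarith
      have h3 : 0 ≤ (1 / 4 : ℝ) ^ j := by positivity
      have h4 := mul_le_mul_of_nonneg_left h2 h3
      linarith
    refine (Finset.sum_le_sum h1).trans ?_
    rw [Finset.sum_add_distrib, ← Finset.mul_sum, ← hS1, ← Finset.sum_mul]
    have h5 : 0 ≤ (ε₁ + C₁ * p) / r + c2 := by positivity
    have h6 := mul_le_mul_of_nonneg_right hg h5
    linarith
  have hF1 : F 0 ≤ S1 := by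
    rw [hS1]
    have h1 := Finset.single_le_sum (f := fun j => (1 / 4 : ℝ) ^ j * F j) (s := Finset.range N)
      (fun j _ => mul_nonneg (by positivity) (hF0 j)) (Finset.mem_range.2 hN)
    simpa using h1
  have hSB : S1 ≤ 2 * ∑ j ∈ Finset.range N, (1 / 4 : ℝ) ^ j * B j := by
    rw [hS1, Finset.mul_sum]
    refine Finset.sum_le_sum fun j _ => ?_
    have := mul_le_mul_of_nonneg_left (hFB j) (by positivity : (0 : ℝ) ≤ (1 / 4) ^ j)
    linarith
  have hX0 : X 0 ≤ δ' * S1 + (ε₁ / r + c2) := by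
    rw [hX, pow_zero, one_mul, if_pos (Nat.zero_le _)]
    have := mul_le_mul_of_nonneg_left hF1 hδ'
    linarith
  rw [← hp]
  refine hL.trans ?_
  have hδ0 : 0 ≤ δ' * (a + 48 * b * CV) := mul_nonneg hδ' (by positivity)
  calc a * X 0 + b * (48 * CV * (∑ j ∈ Finset.range N, (1 / 4 : ℝ) ^ j * X j) + Q') ≤
        a * (δ' * S1 + (ε₁ / r + c2))
          + b * (48 * CV * (δ' * S1 + 2 * ((ε₁ + C₁ * p) / r + c2)) + Q') := by gcongr
    _ = (δ' * (a + 48 * b * CV)) * S1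
          + ((a + 96 * b * CV) * ε₁ + 96 * b * CV * (C₁ * p)) / r
          + (a + 96 * b * CV) * c2 + b * Q' := by ring
    _ ≤ (δ' * (a + 48 * b * CV)) * (2 * ∑ j ∈ Finset.range N, (1 / 4 : ℝ) ^ j * B j)
          + ((a + 96 * b * CV) * ε₁ + 96 * b * CV * (C₁ * p)) / r
          + (a + 96 * b * CV) * c2 + b * Q' := by gcongr
    _ = _ := by
        rw [hδ]
        ring

set_option maxHeartbeats 1600000 in
/-- The terms of the local energy identity at one time at the scale `ρ / 2 ^ n`: the main term is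
`ε / (ρ / 2 ^ n)` if the integral of the vorticity over a larger cube is small. -/
theorem flx2 (hVel : StmVelL) (hNear : StmNear) (hDec : StmDecL) : ∀ K D δ ε : ℝ, 0 < K → 0 < D →
    0 < δ → 0 < ε → ∃ Λ η : ℝ, 1 ≤ Λ ∧ 0 < η ∧ ∀ H ρ : ℝ, 0 ≤ H → 0 < ρ → ρ ≤ 1 →
    ∃ (n₁ : ℕ) (C : ℝ), 6 ≤ n₁ ∧ 0 ≤ C ∧
    ∀ (v : V → V) (q : V → ℝ) (m Q : ℝ) (x : V), SM v → ContDiff ℝ ∞ q → DFO (ball x ρ) v →
    (∀ y ∈ ball x ρ, lap q y = ∑ i, pd i (fun z => crossProduct (v z) (vort v z) i) y) →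
    MorB K x ρ (om v) → √((∫ z in closedBall x ρ, W221.NS.nsq v z) / ρ ^ 3) ≤ H →
    ∫ y in closedBall x ρ, |q y - m| ≤ Q →
    ∀ n : ℕ, n₁ ≤ n → ∫ y in closedBall x (Λ * (ρ / 2 ^ n)), om v y ≤ η * (ρ / 2 ^ n) →
      ∀ φ : V → ℝ, ContDiff ℝ ∞ φ →
      (∀ y, φ y ≠ 0 → ‖y - x‖ ≤ 2 * (ρ / 2 ^ n)) → (∀ y i, |pd i φ y| ≤ D / (ρ / 2 ^ n)) →
      (∀ y, |lap φ y| ≤ D / (ρ / 2 ^ n) ^ 2) →
        |∫ y, W221.NS.nsq v y * lap φ y| + |2 * ∫ y, q y * W221.NS.adv v φ y|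
          + (∫ y in closedBall x (2 * (ρ / 2 ^ n)), W221.NS.nsq v y) / (ρ / 2 ^ n) ^ 2
          ≤ δ * ∑ j ∈ Finset.range (n - 2),
              (1 / 4 : ℝ) ^ j * W221.NS.B2 x (2 ^ (j + 3) * (ρ / 2 ^ n)) v
            + ε / (ρ / 2 ^ n) + C * (1 + (ρ / 2 ^ n) ^ 2 * Q) := by
  obtain ⟨CV, hCV, hVel⟩ := hVel
  obtain ⟨CD, hCD, hDec⟩ := hDec
  intro K D δ ε hK hD hδ hε
  obtain ⟨a, ha⟩ : ∃ a : ℝ, a = 3 * CV ^ 2 * (D + 1) + 36 * CD * CV ^ 2 * D := ⟨_, rfl⟩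
  have ha0 : 0 < a := by rw [ha]; positivity
  obtain ⟨b, hb⟩ : ∃ b : ℝ, b = 36 * CV * (72 * K + 64) * D * CD := ⟨_, rfl⟩
  have hb0 : 0 < b := by rw [hb]; positivity
  obtain ⟨δ₁, hδ₁⟩ : ∃ δ₁ : ℝ, δ₁ = δ / (2 * (a + 48 * b * CV)) := ⟨_, rfl⟩
  have hδ₁0 : 0 < δ₁ := by rw [hδ₁]; positivity
  have hδ₁' : δ₁ * (a + 48 * b * CV) = δ / 2 := by
    have h0 : 0 < a + 48 * b * CV := by positivity
    rw [hδ₁, div_mul_eq_mul_div, div_eq_div_iff (by positivity) (by norm_num)]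
    ring
  obtain ⟨C₁, hC₁, hN1⟩ := nearL hNear K (2 * K) δ₁ hK.le (by positivity) hδ₁0
  obtain ⟨ε₁, hε₁⟩ : ∃ ε₁ : ℝ, ε₁ = ε / (2 * (a + 96 * b * CV)) := ⟨_, rfl⟩
  have hε₁0 : 0 < ε₁ := by rw [hε₁]; positivity
  have hε₁' : (a + 96 * b * CV) * ε₁ = ε / 2 := by
    have h0 : 0 < a + 96 * b * CV := by positivity
    rw [hε₁, mul_div_assoc', div_eq_div_iff (by positivity) (by norm_num)]
    ring
  obtain ⟨j₁, hj₁⟩ := exists_pow_lt_of_lt_one (show 0 < ε / (2 * (96 * b * CV * (C₁ + 1))) by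
    positivity) (show (1 / 2 : ℝ) < 1 by norm_num)
  have hj₁' : 96 * b * CV * (C₁ * (1 / 2) ^ j₁) ≤ ε / 2 := by
    rw [lt_div_iff₀ (by positivity)] at hj₁
    have h1 : (0 : ℝ) < (1 / 2) ^ j₁ := by positivity
    have h2 : 0 ≤ 96 * b * CV * (1 / 2) ^ j₁ := by positivity
    linarith
  obtain ⟨ηn, hηn, hηn1, hN0⟩ := near2L K δ₁ ε₁ hK.le hδ₁0 hε₁0
  obtain ⟨Λ₁, hΛ₁⟩ : ∃ Λ₁ : ℝ, Λ₁ = 3 * K / ηn + 1 := ⟨_, rfl⟩
  have hΛ₁1 : 1 ≤ Λ₁ := by
    rw [hΛ₁]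
    have : 0 ≤ 3 * K / ηn := by positivity
    linarith
  have hΛ₁K : K / Λ₁ ≤ ηn / 3 := by
    have h1 : ηn * Λ₁ = 3 * K + ηn := by
      rw [hΛ₁]
      field_simp
    rw [div_le_div_iff₀ (by linarith) (by norm_num), h1]
    linarith
  obtain ⟨G, hG⟩ : ∃ G : ℝ, G = 2 ^ j₁ := ⟨_, rfl⟩
  have hG1 : 1 ≤ G := by rw [hG]; exact one_le_pow₀ (by norm_num)
  refine ⟨(Λ₁ + 8) * G, ηn / 3, by nlinarith, by positivity, ?_⟩
  intro H ρ hH hρ hρ1
  obtain ⟨r₀, hr₀⟩ : ∃ r₀ : ℝ, r₀ = K / (H + 1) := ⟨_, rfl⟩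
  have hr₀0 : 0 < r₀ := by rw [hr₀]; positivity
  have hKH : 0 ≤ K + H := by positivity
  obtain ⟨CN, hCN, hN2⟩ := nearL hNear K (K + H) δ₁ hK.le hKH hδ₁0
  obtain ⟨n₂, hn₂⟩ := exists_pow_lt_of_lt_one
    (show 0 < min (ηn / (3 * (H + 1) * G)) (1 / (4 * (Λ₁ + 8) * G)) by
      have : 0 < Λ₁ + 8 := by linarith
      exact lt_min (by positivity) (by positivity)) (show (1 / 2 : ℝ) < 1 by norm_num)
  refine ⟨max 6 n₂, (a + 96 * b * CV) * (CN / r₀) + b / (ρ / 8) ^ 4, le_max_left _ _,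
    by positivity, ?_⟩
  intro v q m Q x hv hq hdf hlap hMor hE hQ n hn hsm φ hφ hsupp hpd hlapφ
  have hn6 : 6 ≤ n := (le_max_left _ _).trans hn
  have hnn : n₂ ≤ n := (le_max_right _ _).trans hn
  have hQ0 : 0 ≤ Q := (integral_nonneg fun y => abs_nonneg _).trans hQ
  obtain ⟨r, hrdef⟩ : ∃ r : ℝ, r = ρ / 2 ^ n := ⟨_, rfl⟩
  have hr : 0 < r := by rw [hrdef]; positivity
  have h2n : ρ = 2 ^ n * r := by rw [hrdef]; field_simp
  have hpn : (1 / 2 : ℝ) ^ n ≤ (1 / 2) ^ n₂ :=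
    pow_le_pow_of_le_one (by norm_num) (by norm_num) hnn
  have hrp : r = ρ * (1 / 2) ^ n := by
    rw [hrdef, one_div, inv_pow]
    rfl
  have hr2 : r ≤ (1 / 2) ^ n := by
    rw [hrp]
    exact mul_le_of_le_one_left (by positivity) hρ1
  -- the consequences of the choice of `n₁`
  have hHr : H * (G * r) ≤ ηn / 3 := by
    have h1 : r ≤ ηn / (3 * (H + 1) * G) := (hr2.trans hpn).trans (hn₂.le.trans (min_le_left _ _))
    rw [le_div_iff₀ (by positivity)] at h1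
    have h2 : 0 ≤ G * r := by positivity
    have h3 : (H + 1) * (G * r) = r * (3 * (H + 1) * G) / 3 := by ring
    have h4 : H * (G * r) ≤ (H + 1) * (G * r) := mul_le_mul_of_nonneg_right (by linarith) h2
    linarith
  have hΛr : (Λ₁ + 8) * (G * r) ≤ ρ / 4 := by
    have h1 : (1 / 2 : ℝ) ^ n ≤ 1 / (4 * (Λ₁ + 8) * G) := hpn.trans (hn₂.le.trans (min_le_right _ _))
    have h3 : 0 < Λ₁ + 8 := by linarith
    rw [le_div_iff₀ (by positivity)] at h1
    have h4 : (Λ₁ + 8) * (G * r) = ρ * ((1 / 2) ^ n * (4 * (Λ₁ + 8) * G)) / 4 := by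
      rw [hrp]
      ring
    rw [h4]
    have h5 : ρ * ((1 / 2) ^ n * (4 * (Λ₁ + 8) * G)) ≤ ρ * 1 :=
      mul_le_mul_of_nonneg_left h1 hρ.le
    linarith
  have hscale : ∀ j ≤ n - 3, 8 * (2 ^ j * r) ≤ ρ := by
    intro j hj
    have h1 : (2 : ℝ) ^ j * 8 ≤ 2 ^ n := by
      have : (2 : ℝ) ^ j * 2 ^ 3 ≤ 2 ^ n := by
        rw [← pow_add]
        exact pow_le_pow_right₀ (by norm_num) (by omega)
      linarith
    rw [h2n]
    calc 8 * (2 ^ j * r) = (2 ^ j * 8) * r := by ring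
      _ ≤ 2 ^ n * r := mul_le_mul_of_nonneg_right h1 hr.le
  obtain ⟨F, hF⟩ : ∃ F : ℕ → ℝ, F = fun j => ∫ y in closedBall x (8 * (2 ^ j * r)), om v y ^ 2 := ⟨_, rfl⟩
  have hF0 : ∀ j, 0 ≤ F j := fun j => by rw [hF]; exact integral_nonneg fun y => sq_nonneg _
  have hFB : ∀ j, F j ≤ 2 * W221.NS.B2 x (2 ^ (j + 3) * r) v := by
    intro j
    rw [hF]
    have e : 8 * ((2 : ℝ) ^ j * r) = 2 ^ (j + 3) * r := by rw [pow_add]; ring
    show ∫ y in closedBall x (8 * (2 ^ j * r)), om v y ^ 2 ≤ _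
    rw [e]
    exact int_om_sqL hv x _
  have hfc : Continuous (om v) := om_contL hv
  have hf0 : ∀ y, 0 ≤ om v y := fun y => Pool.Agent.Q199.VD.om_nonneg v y
  have hfabs : ∀ (z : V) (s : ℝ), ∫ y in closedBall z s, |om v y| = ∫ y in closedBall z s, om v y :=
    fun z s => integral_congr_ae (Eventually.of_forall fun y => abs_of_nonneg (hf0 y))
  have hsubm : ∀ (z : V) (s : ℝ), closedBall z s ⊆ closedBall x ((Λ₁ + 8) * G * r) →
      ∫ y in closedBall z s, om v y ≤ ηn / 3 * r := by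
    intro z s hs
    refine (setIntegral_mono_set (integrableOn_ball hfc _ _) (Eventually.of_forall hf0)
      hs.eventuallyLE).trans ?_
    rw [hrdef]
    exact hsm
  obtain ⟨A₁, hA₁⟩ : ∃ A₁ : ℝ, A₁ = ηn / 3 + K / Λ₁ + H * (G * r) := ⟨_, rfl⟩
  have hA₁0 : 0 ≤ A₁ := by
    rw [hA₁]
    have : 0 < Λ₁ := by linarith
    positivity
  have hA₁η : A₁ ≤ ηn := by rw [hA₁]; linarith
  have hle : ∀ j ≤ j₁, (2 : ℝ) ^ j ≤ G := fun j hj => by
    rw [hG]
    exact pow_le_pow_right₀ (by norm_num) hj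
  classical
  obtain ⟨A, hA⟩ : ∃ A : ℕ → ℝ, A = fun j => if j ≤ j₁ then A₁ else
    if 2 ^ j * r ≤ r₀ then 2 * K else K + H := ⟨_, rfl⟩
  obtain ⟨X, hX⟩ : ∃ X : ℕ → ℝ, X = fun j => δ₁ * F j + (if j ≤ j₁ then ε₁ else C₁) / (2 ^ j * r)
    + CN / r₀ := ⟨_, rfl⟩
  have hA00 : A 0 = A₁ := by
    rw [hA]
    simp only [Nat.zero_le, if_true]
  have hm := master2 (D := D) (K := K) hCV hCD hDec hD hK.le hρ hv hq hdf hlap hMor hQ hn6 hφ
    hsupp hpd hlapφ (A := A) (X := X) ?_ ?_ ?_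
  · rw [hA00, ← hrdef, ← ha] at hm
    have hbb : 36 * CV * (72 * K + 64 * A₁) * D * CD ≤ b := by
      rw [hb]
      have : 72 * K + 64 * A₁ ≤ 72 * K + 64 := by linarith
      gcongr
    have hS0 : 0 ≤ 48 * CV * (∑ j ∈ Finset.range (n - 2), (1 / 4 : ℝ) ^ j * X j)
        + r ^ 2 * (Q / (ρ / 8) ^ 4) := by
      have h1 : ∀ j, 0 ≤ X j := fun j => by
        rw [hX]
        have := hF0 j
        have h3 : 0 ≤ (if j ≤ j₁ then ε₁ else C₁) := by split_ifs <;> linarith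
        positivity
      have h2 : 0 ≤ ∑ j ∈ Finset.range (n - 2), (1 / 4 : ℝ) ^ j * X j :=
        Finset.sum_nonneg fun j _ => mul_nonneg (by positivity) (h1 j)
      positivity
    have hm2 := hm.trans (add_le_add le_rfl (mul_le_mul_of_nonneg_right hbb hS0))
    have hfin := finish2 (δ := δ) (c2 := CN / r₀) (j₁ := j₁) (ε₁ := ε₁) (C₁ := C₁) ha0.le hb0.le hCV
      hr hδ₁0.le hδ₁' hε₁0.le hC₁ (by positivity : 0 ≤ CN / r₀) hF0 hFB (by omega : 0 < n - 2)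
      (fun j => by rw [hX]) hm2
    rw [← hrdef]
    refine hfin.trans ?_
    have e0 : ((a + 96 * b * CV) * ε₁ + 96 * b * CV * (C₁ * (1 / 2) ^ j₁)) / r ≤ ε / r := by
      refine div_le_div_of_nonneg_right ?_ hr.le
      rw [hε₁']
      linarith
    have hQr : 0 ≤ r ^ 2 * Q := by positivity
    have t1 : 0 ≤ (a + 96 * b * CV) * (CN / r₀) := by positivity
    have t2 : 0 ≤ b / (ρ / 8) ^ 4 := by positivity
    have t4 : (a + 96 * b * CV) * (CN / r₀) + b / (ρ / 8) ^ 4 * (r ^ 2 * Q) ≤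
        ((a + 96 * b * CV) * (CN / r₀) + b / (ρ / 8) ^ 4) * (1 + r ^ 2 * Q) := by
      have t5 : 0 ≤ (a + 96 * b * CV) * (CN / r₀) * (r ^ 2 * Q) := mul_nonneg t1 hQr
      have t6 : ((a + 96 * b * CV) * (CN / r₀) + b / (ρ / 8) ^ 4) * (1 + r ^ 2 * Q)
          = (a + 96 * b * CV) * (CN / r₀) + b / (ρ / 8) ^ 4
            + (a + 96 * b * CV) * (CN / r₀) * (r ^ 2 * Q) + b / (ρ / 8) ^ 4 * (r ^ 2 * Q) := by
        ring
      rw [t6]
      linarith
    have e1 : b * (r ^ 2 * (Q / (ρ / 8) ^ 4)) = b / (ρ / 8) ^ 4 * (r ^ 2 * Q) := by ring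
    linarith
  · intro j
    rw [hA]
    simp only
    split_ifs <;> positivity
  · intro j hj y hy i
    rw [← hrdef] at hy ⊢
    have hs : 0 < 2 ^ j * r := by positivity
    have hs8 := hscale j hj
    have hyx : ‖y - x‖ ≤ 4 * (2 ^ j * r) := by rwa [mem_closedBall, dist_eq_norm] at hy
    by_cases hc : j ≤ j₁
    · have hGs : 2 ^ j * r ≤ G * r := mul_le_mul_of_nonneg_right (hle j hc) hr.le
      have hΛs : Λ₁ * (2 ^ j * r) ≤ ρ / 4 := by
        have h1 : Λ₁ * (2 ^ j * r) ≤ Λ₁ * (G * r) := mul_le_mul_of_nonneg_left hGs (by linarith)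
        have h2 : 0 ≤ G * r := by positivity
        linarith
      have h1 := (hVel v x K ρ (Λ₁ * (2 ^ j * r)) hv hdf hK.le
        (mul_pos (by linarith) hs) hΛs hMor y (by linarith) i).1
      refine h1.trans ?_
      apply mul_le_mul_of_nonneg_left _ hCV.le
      have h2 := Pool.Agent.Q284.CL.pot_stepL hfc (b := 2 ^ j * r) (a := Λ₁ * (2 ^ j * r))
        (M := ηn / 3 * r) hs (le_mul_of_one_le_left hs.le hΛ₁1) y (by
          rw [hfabs]
          refine hsubm y _ (closedBall_subset_closedBall' ?_)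
          rw [dist_eq_norm]
          have h3 : (Λ₁ + 8) * G * r = (Λ₁ + 8) * (G * r) := by ring
          rw [h3]
          have h4 : (Λ₁ + 4) * (2 ^ j * r) ≤ (Λ₁ + 8) * (G * r) := by
            have : 0 ≤ G * r := by positivity
            have : (Λ₁ + 4) * (2 ^ j * r) ≤ (Λ₁ + 4) * (G * r) :=
              mul_le_mul_of_nonneg_left hGs (by linarith)
            linarith
          linarith)
      have h3 : ηn / 3 * r / (2 ^ j * r) ^ 2 ≤ ηn / 3 / (2 ^ j * r) := by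
        rw [div_le_div_iff₀ (by positivity) hs]
        have h2j : (1 : ℝ) ≤ 2 ^ j := one_le_pow₀ (by norm_num)
        have e1 : ηn / 3 * (2 ^ j * r) ^ 2 = ηn / 3 * (2 ^ j * r) * (2 ^ j * r) := by ring
        have e2 : ηn / 3 * r * (2 ^ j * r) ≤ ηn / 3 * (2 ^ j * r) * (2 ^ j * r) := by
          gcongr
          exact le_mul_of_one_le_left hr.le h2j
        linarith
      have h4 : K / (Λ₁ * (2 ^ j * r)) = K / Λ₁ / (2 ^ j * r) := by rw [div_div]
      have h5 : H ≤ H * (G * r) / (2 ^ j * r) := by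
        rw [le_div_iff₀ hs]
        exact mul_le_mul_of_nonneg_left hGs hH
      have h6 : A j / (2 ^ j * r)
          = ηn / 3 / (2 ^ j * r) + K / Λ₁ / (2 ^ j * r) + H * (G * r) / (2 ^ j * r) := by
        rw [hA]
        simp only [if_pos hc]
        rw [hA₁, add_div, add_div]
      rw [h6]
      linarith
    · have h1 := (hVel v x K ρ (2 ^ j * r) hv hdf hK.le hs (by linarith) hMor y (by linarith) i).1
      refine h1.trans ?_
      apply mul_le_mul_of_nonneg_left _ hCV.le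
      have hs1 : 2 ^ j * r ≤ 1 := by linarith
      have h2 : K / (2 ^ j * r) + H ≤ A j / (2 ^ j * r) := by
        rw [hA]
        simp only [if_neg hc]
        split_ifs with h
        · rw [div_add' _ _ _ hs.ne', div_le_div_iff_of_pos_right hs]
          rw [hr₀, le_div_iff₀ (by positivity)] at h
          linarith
        · rw [div_add' _ _ _ hs.ne', div_le_div_iff_of_pos_right hs]
          have := mul_le_mul_of_nonneg_left hs1 hH
          linarith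
      linarith
  · intro j hj
    rw [← hrdef]
    have hs : 0 < 2 ^ j * r := by positivity
    have hs7 : 7 * (2 ^ j * r) ≤ ρ := by linarith [hscale j hj]
    have p1 : 0 ≤ CN / r₀ := by positivity
    by_cases hc : j ≤ j₁
    · have hGs : 2 ^ j * r ≤ G * r := mul_le_mul_of_nonneg_right (hle j hc) hr.le
      have h2j : (1 : ℝ) ≤ 2 ^ j := one_le_pow₀ (by norm_num)
      have h1 := hN0 A₁ hA₁0 hA₁η (2 ^ j * r) ρ (om v) x hs hs7 hfc hf0 hMor (by
        refine (hsubm x _ (closedBall_subset_closedBall ?_)).trans ?_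
        · have h3 : (Λ₁ + 8) * G * r = (Λ₁ + 8) * (G * r) := by ring
          rw [h3]
          exact mul_le_mul (by linarith) hGs hs.le (by linarith)
        · exact mul_le_mul (by linarith) (le_mul_of_one_le_left hr.le h2j) hr.le hηn.le)
      have hAj : A j = A₁ := by rw [hA]; exact if_pos hc
      have hXj : X j = δ₁ * F j + ε₁ / (2 ^ j * r) + CN / r₀ := by rw [hX]; simp only [if_pos hc]
      have hFj : F j = ∫ y in closedBall x (8 * (2 ^ j * r)), om v y ^ 2 := by rw [hF]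
      rw [hAj, hXj, hFj]
      exact h1.trans (le_add_of_nonneg_right p1)
    · have hXj : X j = δ₁ * F j + C₁ / (2 ^ j * r) + CN / r₀ := by rw [hX]; simp only [if_neg hc]
      have hFj : F j = ∫ y in closedBall x (8 * (2 ^ j * r)), om v y ^ 2 := by rw [hF]
      have p2 : 0 ≤ C₁ / (2 ^ j * r) := by positivity
      rw [hXj, hFj]
      by_cases h : 2 ^ j * r ≤ r₀
      · have hAj : A j = 2 * K := by rw [hA]; simp only [if_neg hc, if_pos h]
        rw [hAj]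
        have h1 : NT (om v) x (2 ^ j * r) (2 * K)
            ≤ δ₁ * (∫ y in closedBall x (8 * (2 ^ j * r)), om v y ^ 2) + C₁ / (2 ^ j * r) :=
          hN1 (2 ^ j * r) ρ (om v) x hs hs7 hfc hf0 hMor
        exact h1.trans (le_add_of_nonneg_right p1)
      · have hAj : A j = K + H := by rw [hA]; simp only [if_neg hc, if_neg h]
        rw [hAj]
        have h1 : NT (om v) x (2 ^ j * r) (K + H)
            ≤ δ₁ * (∫ y in closedBall x (8 * (2 ^ j * r)), om v y ^ 2) + CN / (2 ^ j * r) :=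
          hN2 (2 ^ j * r) ρ (om v) x hs hs7 hfc hf0 hMor
        have h2 : CN / (2 ^ j * r) ≤ CN / r₀ := div_le_div_of_nonneg_left hCN hr₀0 (not_le.1 h).le
        refine h1.trans ?_
        rw [add_assoc]
        exact add_le_add le_rfl (h2.trans (le_add_of_nonneg_left p2))

end Pool.Agent.U481.TY
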