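import Pool.Agent.U481.TY.En

/-!
Critical vortex chains: chains at every concentration of the vorticity (viscosity one).
-/

set_option autoImplicit false

open MeasureTheory Set Metric Filter Topology
open scoped ContDiff
open H459R3.NS Pool.Agent.W268.NS Pool.Agent.Q67.VD
open Pool.Agent.Q199.VD

namespace Pool.Agent.U481.TY

open Pool.Agent.Q85.CC Pool.Agent.Q85.CL Pool.Agent.Q85.VL Pool.Agent.Q151.CC

/-- The mollified velocity is bounded by a constant which depends only on the Morrey constant, at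
all small scales. -/
theorem molU (hVel : StmVelL) : ∀ K : ℝ, 0 < K → ∃ KV : ℝ, 0 ≤ KV ∧
    ∀ (T E : ℝ) (O : Set V) (u : ℝ → V → V) (p : ℝ → V → ℝ), 0 < T → LSl T E O u p →
    ∀ (T₀ ρ₀ : ℝ) (a : V), 0 ≤ T₀ → T₀ < T → 0 < ρ₀ → closedBall a ρ₀ ⊆ O →
      (∀ t ∈ Ioo T₀ T, MorB K a ρ₀ (om (u t))) →
      ∃ r₂ : ℝ, 0 < r₂ ∧ ∀ τ ∈ Ioo T₀ T, ∀ y, ‖y - a‖ ≤ ρ₀ / 2 → ∀ ρ ∈ Ioc 0 r₂,
        ‖W221.NS.mol ρ u τ y‖ ≤ KV / ρ := by
  obtain ⟨CV, hCV, hVel⟩ := hVel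
  intro K hK
  refine ⟨CV * (K + 1), by positivity, ?_⟩
  intro T E O u p hT hu T₀ ρ₀ a hT₀ hT₀T hρ₀ hO hMor
  obtain ⟨H, hH⟩ : ∃ H, H = √(E / ρ₀ ^ 3) := ⟨_, rfl⟩
  have hH0 : 0 ≤ H := by rw [hH]; exact Real.sqrt_nonneg _
  refine ⟨min (ρ₀ / 4) (1 / (H + 1)), lt_min (by positivity) (by positivity),
    fun τ hτ y hy ρ hρ => ?_⟩
  have hρ0 := hρ.1
  have hρR : ρ ≤ ρ₀ / 4 := hρ.2.trans (min_le_left _ _)
  have hρH : ρ ≤ 1 / (H + 1) := hρ.2.trans (min_le_right _ _)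
  have hτI : τ ∈ Ioo 0 T := ⟨hT₀.trans_lt hτ.1, hτ.2⟩
  rw [pi_norm_le_iff_of_nonneg (by positivity)]
  intro i
  have h1 := (hVel (u τ) a K ρ₀ ρ (slice_u hu.toLEq hτI)
    (fun x hx => hu.divfree τ hτI x (hO (ball_subset_closedBall hx))) hK.le hρ0 hρR
    (hMor τ hτ) y hy i).2
  rw [Real.norm_eq_abs]
  refine h1.trans ?_
  rw [mul_div_assoc]
  refine mul_le_mul_of_nonneg_left ?_ hCV.le
  rw [add_div]
  have henb : ∫ z in closedBall a ρ₀, W221.NS.nsq (u τ) z ≤ E :=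
    (setIntegral_mono_set (hu.en_int τ hτI) (Eventually.of_forall fun y => nsq_nnL _ _)
      hO.eventuallyLE).trans (hu.en τ hτI)
  have h2 : √((∫ z in closedBall a ρ₀, W221.NS.nsq (u τ) z) / ρ₀ ^ 3) ≤ H := by
    rw [hH]
    exact Real.sqrt_le_sqrt (div_le_div_of_nonneg_right henb (by positivity))
  have h3 : H ≤ 1 / ρ := by
    rw [le_div_iff₀ (by positivity)] at hρH
    rw [le_div_iff₀ hρ0]
    linarith
  linarith

set_option maxHeartbeats 3200000 in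
/-- Chains at every concentration of the vorticity. -/
theorem locChain : ∀ K η ε : ℝ, 0 < K → 0 < η → 0 < ε → ∃ Λ δ : ℝ, 1 ≤ Λ ∧ 0 < δ ∧
    ∀ (T E : ℝ) (O : Set V) (u : ℝ → V → V) (p : ℝ → V → ℝ), 0 < T → LSl T E O u p →
    ∀ (T₀ ρ₀ : ℝ) (a : V), 0 ≤ T₀ → T₀ < T → 0 < ρ₀ → closedBall a ρ₀ ⊆ O →
      (∀ t ∈ Ioo T₀ T, MorB K a ρ₀ (om (u t))) →
      ∃ r : ℝ, 0 < r ∧ ∀ t ∈ Ioo (T - r) T, ∀ x, ‖x - a‖ ≤ ρ₀ / 4 → ∀ ρ ∈ Ioc 0 r,
        η * ρ ≤ ∫ y in closedBall x ρ, om (u t) y → ∀ θ : V → ℝ,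
          Orient θ x (Λ * ρ) (vort (u t)) →
          Chained (fun y => θ y • vort (u t) y)
            {y | ‖y - x‖ ≤ Λ * ρ ∧ δ / ρ ^ 2 < om (u t) y} ε := by
  intro K η₀ ε₀ hK hη₀ hε₀
  obtain ⟨C₁, hC₁, hEn⟩ := enU stmFlxL Pool.Agent.Q2.CL.lel K hK
  obtain ⟨KV, hKV, hMolV⟩ := molU Pool.Agent.Q284.CL.velL K hK
  obtain ⟨cG, hcG, hGood⟩ := Pool.Agent.U481.VL.GdS.goodS
  obtain ⟨h, L, hh, hh1, hL, hGood⟩ := hGood KV C₁ hKV hC₁
  -- the parameters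
  obtain ⟨η, hηd⟩ : ∃ η, η = min η₀ 1 := ⟨_, rfl⟩
  have hη : 0 < η := by rw [hηd]; exact lt_min hη₀ one_pos
  have hη1 : η ≤ 1 := by rw [hηd]; exact min_le_right _ _
  have hηη : η ≤ η₀ := by rw [hηd]; exact min_le_left _ _
  obtain ⟨ε, hεd⟩ : ∃ ε, ε = min ε₀ 1 := ⟨_, rfl⟩
  have hε : 0 < ε := by rw [hεd]; exact lt_min hε₀ one_pos
  have hε1 : ε ≤ 1 := by rw [hεd]; exact min_le_right _ _
  have hεε : ε ≤ ε₀ := by rw [hεd]; exact min_le_left _ _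
  obtain ⟨b, cP, hb, hb1, hcP, hcP1, hPin⟩ :=
    Pool.Agent.U481.VL.pinV (ε / 2) (by positivity) (by linarith)
  obtain ⟨τ, w₀, hτ, hw₀, hw₀h, hAna⟩ := Pool.Agent.U481.VL.AnaS.anaS cG h (8 * cP * η) b hcG hh hh1
    (by positivity) hb
  obtain ⟨τ', hτ'd⟩ : ∃ τ', τ' = min τ 1 := ⟨_, rfl⟩
  have hτ' : 0 < τ' := by rw [hτ'd]; exact lt_min hτ one_pos
  have hτ'1 : τ' ≤ 1 := by rw [hτ'd]; exact min_le_right _ _
  have hτ'τ : τ' ≤ τ := by rw [hτ'd]; exact min_le_left _ _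
  obtain ⟨N, hPin⟩ := hPin K η τ' hK.le hη hη1 hτ' hτ'1
  obtain ⟨G, hGd⟩ : ∃ G : ℝ, G = 256 ^ N := ⟨_, rfl⟩
  have hG1 : 1 ≤ G := by rw [hGd]; exact one_le_pow₀ (by norm_num)
  have hG0 : 0 < G := by linarith
  have hGi : (1 / 256 : ℝ) ^ N * G = 1 := by
    rw [hGd, ← mul_pow]
    norm_num
  obtain ⟨q, hqd⟩ : ∃ q, q = cP * η * τ' := ⟨_, rfl⟩
  have hq : 0 < q := by rw [hqd]; positivity
  refine ⟨2 * G, q / (64 * G ^ 2), by linarith, by positivity, ?_⟩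
  intro T E O u p hT hu T₀ ρ₀ a hT₀ hT₀T hρ₀ hO hMor
  obtain ⟨r₁, hr₁, hdis⟩ := hEn T E O u p hT hu T₀ ρ₀ a hT₀ hT₀T hρ₀ hO hMor
  obtain ⟨r₂, hr₂, hmol⟩ := hMolV T E O u p hT hu T₀ ρ₀ a hT₀ hT₀T hρ₀ hO hMor
  obtain ⟨r₀, hr₀, hGood⟩ := hGood T E O u p hT hu a ρ₀ hρ₀ hO
  have hL0 : 0 < L := by linarith
  -- the largest scale
  obtain ⟨Sm, hSmd⟩ : ∃ Sm, Sm = min (min (min (ρ₀ / 4) 1) (min (q / 64) r₂)) (min r₀ (min (r₁ / L)
    ((T - T₀) / (2 * L)))) := ⟨_, rfl⟩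
  have hSm : 0 < Sm := by
    rw [hSmd]
    refine lt_min (lt_min (lt_min (by positivity) one_pos) (lt_min (by positivity) hr₂))
      (lt_min hr₀ (lt_min (by positivity) ?_))
    exact div_pos (by linarith) (by positivity)
  have m1 : Sm ≤ ρ₀ / 4 := by
    rw [hSmd]; exact (min_le_left _ _).trans ((min_le_left _ _).trans (min_le_left _ _))
  have m2 : Sm ≤ 1 := by
    rw [hSmd]; exact (min_le_left _ _).trans ((min_le_left _ _).trans (min_le_right _ _))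
  have m3 : Sm ≤ q / 64 := by
    rw [hSmd]; exact (min_le_left _ _).trans ((min_le_right _ _).trans (min_le_left _ _))
  have m4 : Sm ≤ r₂ := by
    rw [hSmd]; exact (min_le_left _ _).trans ((min_le_right _ _).trans (min_le_right _ _))
  have m5 : Sm ≤ r₀ := by rw [hSmd]; exact (min_le_right _ _).trans (min_le_left _ _)
  have m6 : Sm ≤ r₁ / L := by
    rw [hSmd]; exact (min_le_right _ _).trans ((min_le_right _ _).trans (min_le_left _ _))
  have m7 : Sm ≤ (T - T₀) / (2 * L) := by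
    rw [hSmd]; exact (min_le_right _ _).trans ((min_le_right _ _).trans (min_le_right _ _))
  refine ⟨min (Sm / G) (min ((T - T₀) / 2) (T / 2)), lt_min (by positivity)
    (lt_min (by linarith) (by linarith)), fun t ht x hxa ρ hρ hconc θ hθ => ?_⟩
  have hρ0 := hρ.1
  have hρG : G * ρ ≤ Sm := by
    have h1 := hρ.2.trans (min_le_left _ _)
    rw [le_div_iff₀ hG0] at h1
    linarith
  have ht1 : (T₀ + T) / 2 < t := by
    have h1 := (min_le_right (Sm / G) (min ((T - T₀) / 2) (T / 2))).trans (min_le_left _ _)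
    linarith [ht.1]
  have ht2 : T / 2 ≤ t := by
    have h1 := (min_le_right (Sm / G) (min ((T - T₀) / 2) (T / 2))).trans (min_le_right _ _)
    linarith [ht.1]
  have htT : t ∈ Ioo T₀ T := ⟨by linarith, ht.2⟩
  have htI : t ∈ Ioo 0 T := ⟨by linarith, ht.2⟩
  have hsm := slice_u hu.toLEq htI
  obtain ⟨S, hSd⟩ : ∃ S, S = G * ρ := ⟨_, rfl⟩
  have hS : 0 < S := by rw [hSd]; positivity
  have hSS : S ≤ Sm := by rw [hSd]; exact hρG
  by_contra hcon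
  -- the field
  obtain ⟨μ, hμd⟩ : ∃ μ, μ = q / (64 * G ^ 2) / ρ ^ 2 := ⟨_, rfl⟩
  have hμ : 0 ≤ μ := by rw [hμd]; positivity
  rw [← hμd] at hcon
  have hR2 : (2 * G * ρ) / 2 = S := by rw [hSd]; ring
  have hnc : ¬ Chained (fun y => θ y • vort (u t) y) {y | ‖y - x‖ ≤ 2 * G * ρ ∧ μ < om (u t) y} ε :=
    fun hc => hcon (hc.mono Subset.rfl hεε)
  obtain ⟨g, hg1, hg2⟩ := Pool.Agent.U401.VL.stmG _ _ x (2 * G * ρ) ε (fun y hy => hy.1) hε hnc
  obtain ⟨Gf, hGs, hGl, hGm⟩ := Pool.Agent.U401.VL.stmMol (u t) θ (fun _ => μ) g x (2 * G * ρ) ε hsm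
    (by positivity) hε hε1 continuous_const (fun _ => hμ) hθ hg1 hg2
  obtain ⟨W, hW, hWe⟩ := Pool.Agent.U481.VL.WdP.wd (u t) θ x (2 * G * ρ) hsm (by positivity) hθ
  have hLF : LF (ε / 2) S x (om (u t)) (fun _ => 2 * (μ + 1)) W Gf := by
    refine ⟨wd_mono hW (by rw [sub_self, norm_zero]; linarith), om_contL hsm,
      continuous_const, fun y => by linarith, fun y hy => ?_, hGs, hGl, fun y hy => ?_⟩
    · rw [mem_closedBall, dist_eq_norm] at hy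
      rw [hWe y (by linarith), len_orient hθ]
      exact le_rfl
    · rw [mem_closedBall, dist_eq_norm] at hy
      rw [hWe y (by linarith)]
      exact hGm y (by linarith)
  -- the remainder
  have hKS : KS S x (fun _ => 2 * (μ + 1)) (cP * η * τ') := by
    have h1 := Pool.Agent.U481.EU.ks_const hS (M := 2 * (μ + 1)) (by linarith) x
    intro n
    refine (h1 n).trans ?_
    rw [← hqd]
    have e1 : μ * S ^ 2 = q / 64 := by
      rw [hμd, hSd]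
      field_simp
    have e2 : S ^ 2 ≤ q / 64 := by
      have : S ^ 2 ≤ S := pow_le_of_le_one hS.le (hSS.trans m2) two_ne_zero
      linarith
    nlinarith
  have hMt : ∫ y in closedBall x S, om (u t) y ≤ K * S := by
    have h1 := hMor t htT x S hS (by linarith)
    rwa [abs_omL] at h1
  obtain ⟨k, hk, hpin⟩ := hPin S ρ x (om (u t)) (fun _ => 2 * (μ + 1)) W Gf hS hLF hMt hKS hρ0
    (by rw [hSd, ← mul_assoc, hGi, one_mul])
    ((mul_le_mul_of_nonneg_right hηη hρ0.le).trans hconc)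
  -- the scale
  obtain ⟨r, hrd⟩ : ∃ r, r = (1 / 256) ^ k * (S / 4) := ⟨_, rfl⟩
  rw [← hrd] at hpin
  have hr : 0 < r := by rw [hrd]; positivity
  have hrS : r ≤ S := by
    rw [hrd]
    have h1 : (1 / 256 : ℝ) ^ k ≤ 1 := pow_le_one₀ (by norm_num) (by norm_num)
    have h2 : (1 / 256) ^ k * (S / 4) ≤ 1 * (S / 4) := mul_le_mul_of_nonneg_right h1 (by positivity)
    linarith
  have hrSm : r ≤ Sm := hrS.trans hSS
  have hr1 : r ≤ 1 := hrSm.trans m2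
  have hLr : L * r ≤ r₁ := by
    rw [le_div_iff₀ hL0] at m6
    have h2 : L * r ≤ L * Sm := mul_le_mul_of_nonneg_left hrSm hL0.le
    linarith
  have hLr2 : L * r ^ 2 ≤ (T - T₀) / 2 := by
    rw [le_div_iff₀ (by positivity)] at m7
    have h1 : r ^ 2 ≤ r := pow_le_of_le_one hr.le hr1 two_ne_zero
    have h2 : L * r ^ 2 ≤ L * Sm := mul_le_mul_of_nonneg_left (h1.trans hrSm) hL0.le
    linarith
  have hball : ∀ y ∈ closedBall x (ρ₀ / 4), ‖y - a‖ ≤ ρ₀ / 2 := by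
    intro y hy
    have h1 : ‖y - a‖ ≤ ‖y - x‖ + ‖x - a‖ := by
      have e1 : y - a = (y - x) + (x - a) := by abel
      rw [e1]
      exact norm_add_le _ _
    rw [mem_closedBall, dist_eq_norm] at hy
    linarith
  obtain ⟨s, hs, hgd⟩ := hGood t r x hr (hrSm.trans m5) ht2 ht.2 (by linarith)
    (fun τ hτ y hy ρ hρ => hmol τ ⟨by linarith [hτ.1], hτ.2.trans ht.2⟩ y (hball y hy) ρ
      ⟨hρ.1, hρ.2.trans (hrSm.trans m4)⟩)
    (fun y hy ρ hρ => hdis t ⟨ht1, ht.2⟩ y (by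
      rw [mem_closedBall, dist_eq_norm]
      exact hball y hy) ρ ⟨hρ.1, hρ.2.trans hLr⟩)
  -- the shell
  have hs0 : 0 < s := lt_of_lt_of_le (by positivity) hs.1
  obtain ⟨w, hwd⟩ : ∃ w, w = min (w₀ * r) (s / 4) := ⟨_, rfl⟩
  have hw : 0 < w := by rw [hwd]; exact lt_min (by positivity) (by positivity)
  have hw1 : w ≤ w₀ * r := by rw [hwd]; exact min_le_left _ _
  have hw2 : w ≤ s / 4 := by rw [hwd]; exact min_le_right _ _
  obtain ⟨⟨z, hz, hquiet⟩, hflux⟩ := hpin s hs.1 hs.2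
  have hflux := hflux w hw hw2
  have hsml := hAna (u t) x z r s hsm hr hs.1 hs.2 hgd hz
    (hquiet.trans (mul_le_mul_of_nonneg_right hτ'τ hr.le))
  have hvol := vol_shell x s w hw hw2
  have hfin : volume (Shell x s w) < ⊤ := hvol.trans_lt ENNReal.ofReal_lt_top
  have hint : ∫ y in Shell x s w, om (u t) y
      ≤ 8 * cP * η / r ^ 2 * (volume (Shell x s w)).toReal := by
    have h1 := norm_setIntegral_le_of_norm_le_const (μ := volume) (s := Shell x s w)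
      (f := om (u t)) (C := 8 * cP * η / r ^ 2) hfin
      (fun y hy => by
        rw [Real.norm_eq_abs, abs_of_nonneg (om_nnL _ _)]
        exact hsml y (le_trans hy hw1))
    exact (Real.le_norm_self _).trans h1
  have hvr : (volume (Shell x s w)).toReal ≤ 64 * s ^ 2 * w :=
    ENNReal.toReal_le_of_le_ofReal (by positivity) hvol
  have hs2 : s ^ 2 ≤ (r / 32) ^ 2 := pow_le_pow_left₀ hs0.le hs.2 2
  have hvr2 : (volume (Shell x s w)).toReal ≤ r ^ 2 * w / 16 := by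
    refine hvr.trans ?_
    have h1 : 64 * s ^ 2 * w ≤ 64 * (r / 32) ^ 2 * w := by gcongr
    refine h1.trans (le_of_eq ?_)
    ring
  have hfinal : ∫ y in Shell x s w, om (u t) y ≤ cP * η * w / 2 := by
    refine hint.trans ((mul_le_mul_of_nonneg_left hvr2 (by positivity)).trans (le_of_eq ?_))
    field_simp
    ring
  have hpos : 0 < cP * η * w := by positivity
  linarith

end Pool.Agent.U481.TY
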