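import Pool.Agent.U481.TY.Conc2
import Pool.Agent.U481.VL.LyapD

/-!
Critical vortex chains: the theorems.
-/

set_option autoImplicit false

open MeasureTheory Set Metric Filter Topology
open scoped ContDiff
open H459R3.NS Pool.Agent.W268.NS Pool.Agent.Q67.VD
open Pool.Agent.Q199.VD

namespace Pool.Agent.U481.TY

open Pool.Agent.Q85.CC Pool.Agent.Q85.CL Pool.Agent.Q85.VL Pool.Agent.Q151.CC

set_option maxHeartbeats 1600000 in
/-- Chains at every small scale (viscosity one). -/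
theorem scale1 : ∀ K ε : ℝ, 0 < K → 0 < ε → ∃ c : ℝ, 0 < c ∧ c ≤ 1 ∧
    ∀ (T E : ℝ) (O : Set V) (u : ℝ → V → V) (p : ℝ → V → ℝ), 0 < T → LSl T E O u p →
    ∀ (T₀ ρ₀ : ℝ) (a : V), 0 ≤ T₀ → T₀ < T → 0 < ρ₀ → closedBall a ρ₀ ⊆ O →
      (∀ t ∈ Ioo T₀ T, MorB K a ρ₀ (om (u t))) →
      (¬ ∃ B δ : ℝ, 0 < δ ∧ ∀ t ∈ Ioo (T - δ) T, 0 < t → ∀ x ∈ closedBall a δ, ‖u t x‖ ≤ B) →
      ∃ R₀ : ℝ, 0 < R₀ ∧ R₀ ≤ ρ₀ ∧ ∀ R ∈ Ioc 0 R₀, T₀ < T - R ^ 2 ∧
        ∃ t ∈ Ioo (T - R ^ 2) (T - c * R ^ 2),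
        c * R < ∫ y in closedBall a R, om (u t) y ∧
        ∀ θ : V → ℝ, Orient θ a R (vort (u t)) →
          Chained (fun y => θ y • vort (u t) y) {y | ‖y - a‖ ≤ R ∧ c / R ^ 2 < om (u t) y} ε := by
  intro K ε hK hε
  obtain ⟨η, c₁, hη, hc₁, hc₁1, hC⟩ := conc2 K hK
  obtain ⟨Λ, δ, hΛ, hδ, hL⟩ := locChain K η ε hK hη hε
  have hΛ0 : 0 < Λ := by linarith
  obtain ⟨c, hcd⟩ : ∃ c, c = min (min (c₁ / Λ ^ 2) (η / Λ)) (min 1 (δ * Λ ^ 2)) := ⟨_, rfl⟩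
  have hc : 0 < c := by
    rw [hcd]
    exact lt_min (lt_min (by positivity) (by positivity)) (lt_min one_pos (by positivity))
  have hc1 : c ≤ c₁ / Λ ^ 2 := by rw [hcd]; exact (min_le_left _ _).trans (min_le_left _ _)
  have hc2 : c ≤ η / Λ := by rw [hcd]; exact (min_le_left _ _).trans (min_le_right _ _)
  have hc3 : c ≤ 1 := by rw [hcd]; exact (min_le_right _ _).trans (min_le_left _ _)
  have hc4 : c ≤ δ * Λ ^ 2 := by rw [hcd]; exact (min_le_right _ _).trans (min_le_right _ _)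
  refine ⟨c, hc, hc3, ?_⟩
  intro T E O u p hT hu T₀ ρ₀ a hT₀ hT₀T hρ₀ hO hMor hB
  obtain ⟨R₁, hR₁, hC⟩ := hC T E O u p hT hu T₀ ρ₀ a hT₀ hT₀T hρ₀ hO hMor
  obtain ⟨r, hr, hL⟩ := hL T E O u p hT hu T₀ ρ₀ a hT₀ hT₀T hρ₀ hO hMor
  obtain ⟨R₀, hR₀d⟩ : ∃ R₀, R₀ = min (min R₁ r) (min (min 1 (ρ₀)) ((T - T₀) / 2)) := ⟨_, rfl⟩
  have hR₀ : 0 < R₀ := by
    rw [hR₀d]
    exact lt_min (lt_min hR₁ hr) (lt_min (lt_min one_pos hρ₀) (by linarith))
  have m1 : R₀ ≤ R₁ := by rw [hR₀d]; exact (min_le_left _ _).trans (min_le_left _ _)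
  have m2 : R₀ ≤ r := by rw [hR₀d]; exact (min_le_left _ _).trans (min_le_right _ _)
  have m3 : R₀ ≤ 1 := by
    rw [hR₀d]; exact (min_le_right _ _).trans ((min_le_left _ _).trans (min_le_left _ _))
  have m4 : R₀ ≤ ρ₀ := by
    rw [hR₀d]; exact (min_le_right _ _).trans ((min_le_left _ _).trans (min_le_right _ _))
  have m5 : R₀ ≤ (T - T₀) / 2 := by rw [hR₀d]; exact (min_le_right _ _).trans (min_le_right _ _)
  refine ⟨R₀, hR₀, m4, ?_⟩
  intro R hR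
  have hR0 := hR.1
  have hR1 : R ≤ 1 := hR.2.trans m3
  have hRR : R ^ 2 ≤ R := pow_le_of_le_one hR0.le hR1 two_ne_zero
  have hRT : T₀ < T - R ^ 2 := by linarith [hR.2.trans m5]
  refine ⟨hRT, ?_⟩
  obtain ⟨ρ, hρd⟩ : ∃ ρ, ρ = R / Λ := ⟨_, rfl⟩
  have hρ : 0 < ρ := by rw [hρd]; positivity
  have hΛρ : Λ * ρ = R := by rw [hρd]; field_simp
  have hρR : ρ ≤ R := by rw [hρd]; exact div_le_self hR0.le hΛ
  have hex : ∃ t ∈ Ioo (T - ρ ^ 2) (T - c₁ * ρ ^ 2), η * ρ < ∫ y in closedBall a ρ, om (u t) y := by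
    by_contra hno
    push Not at hno
    exact hB (hC ρ ⟨hρ, hρR.trans (hR.2.trans m1)⟩ hno)
  obtain ⟨t, ht, hconc⟩ := hex
  have hρ2 : ρ ^ 2 ≤ R ^ 2 := pow_le_pow_left₀ hρ.le hρR 2
  have hcR : c * R ^ 2 ≤ c₁ * ρ ^ 2 := by
    have h1 : c * R ^ 2 ≤ c₁ / Λ ^ 2 * R ^ 2 := mul_le_mul_of_nonneg_right hc1 (sq_nonneg R)
    have h2 : c₁ / Λ ^ 2 * R ^ 2 = c₁ * ρ ^ 2 := by
      rw [hρd]
      field_simp
    linarith
  have hcρ : 0 < c₁ * ρ ^ 2 := by positivity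
  have htT : t < T := by linarith [ht.2]
  have ht0 : 0 < t := by linarith [ht.1]
  have hsm := slice_u hu.toLEq ⟨ht0, htT⟩
  refine ⟨t, ⟨by linarith [ht.1], by linarith [ht.2]⟩, ?_, ?_⟩
  · have h1 : c * R ≤ η * ρ := by
      have h2 : c * R ≤ η / Λ * R := mul_le_mul_of_nonneg_right hc2 hR0.le
      have h3 : η / Λ * R = η * ρ := by
        rw [hρd]
        ring
      linarith
    refine h1.trans_lt (hconc.trans_le ?_)
    exact setIntegral_mono_set ((om_contL hsm).continuousOn.integrableOn_compact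
      (isCompact_closedBall _ _)) (Eventually.of_forall fun y => om_nnL _ _)
      (closedBall_subset_closedBall hρR).eventuallyLE
  · intro θ hθ
    have h1 := hL t ⟨by linarith [ht.1, hR.2.trans m2], htT⟩ a (by
      rw [sub_self, norm_zero]
      positivity) ρ ⟨hρ, hρR.trans (hR.2.trans m2)⟩ hconc.le θ (by rw [hΛρ]; exact hθ)
    rw [hΛρ] at h1
    refine h1.mono ?_ le_rfl
    rintro y ⟨hy1, hy2⟩
    refine ⟨hy1, lt_of_le_of_lt ?_ hy2⟩
    rw [← hΛρ, div_le_div_iff₀ (by positivity) (by positivity)]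
    have h2 : c * ρ ^ 2 ≤ δ * Λ ^ 2 * ρ ^ 2 := mul_le_mul_of_nonneg_right hc4 (by positivity)
    calc c * ρ ^ 2 ≤ δ * Λ ^ 2 * ρ ^ 2 := h2
      _ = _ := by ring

/-- The type I bound: the integral of `|ω|` over all the cubes with side `2 r` inside of the cube
with centre `a` and side `2 R` is at most `K ν r`. -/
def TI (ν K T₀ T : ℝ) (a : V) (R : ℝ) (u : ℝ → V → V) : Prop :=
  ∀ t ∈ Ioo T₀ T, ∀ (x : V) (r : ℝ), 0 < r → ‖x - a‖ + r ≤ R →
    ∫ y in closedBall x r, om (u t) y ≤ K * ν * r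

lemma om_int_eq {v w : V → V} {c : ℝ} {S : Set V} (hS : MeasurableSet S)
    (h : ∀ y ∈ S, om v y = c * om w y) :
    ∫ y in S, om v y = c * ∫ y in S, om w y := by
  rw [← integral_const_mul]
  exact setIntegral_congr_fun hS h

set_option maxHeartbeats 1600000 in
/-- Chains at every small scale, all viscosities. -/
theorem scaleD : ∀ K ε : ℝ, 0 < K → 0 < ε → ∃ c : ℝ, 0 < c ∧ c ≤ 1 ∧
    ∀ (ν T E : ℝ) (Ω : Set V) (u : ℝ → V → V) (p : ℝ → V → ℝ), 0 < ν → DSl ν T E Ω u p →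
    ∀ a ∈ Ω, Sing T u a → ∀ T₀ R : ℝ, 0 ≤ T₀ → T₀ < T → 0 < R → TI ν K T₀ T a R u →
      ∃ r₀ : ℝ, 0 < r₀ ∧ ∀ r ∈ Ioc 0 r₀, T₀ < T - r ^ 2 / ν ∧
        ∃ t ∈ Ioo (T - r ^ 2 / ν) (T - c * r ^ 2 / ν),
        c * ν * r < ∫ y in closedBall a r, om (u t) y ∧
        ∀ θ : V → ℝ, Orient θ a r (vort (u t)) →
          Chained (fun y => θ y • vort (u t) y)
            {y | ‖y - a‖ ≤ r ∧ c * ν / r ^ 2 < om (u t) y} ε := by
  intro K ε hK hε
  obtain ⟨c, hc, hc1, H⟩ := scale1 K ε hK hε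
  refine ⟨c, hc, hc1, ?_⟩
  intro ν T E Ω u p hν h a ha hs T₀ R hT₀ hT₀T hR hTI
  obtain ⟨R', hR', hRR, hsub⟩ := small_ball h.openO ha hR
  obtain ⟨E', v, q, hL, hv⟩ := Pool.Agent.Q284.CL.dom ν T E Ω u p hν hs.pos h a R' hR' hsub
  have hνi : 0 < ν⁻¹ := inv_pos.2 hν
  have hνν : ν⁻¹ * ν = 1 := inv_mul_cancel₀ hν.ne'
  have hev : ∀ t ∈ Ioo 0 T, ∀ y, ‖y - a‖ ≤ R' / 2 → ∀ᶠ z in 𝓝 y, v (ν * t) z = ν⁻¹ • u t z := by
    intro t ht y hy
    refine ball_ev (a := a) (R := R') (fun z hz => hv t ht z hz) (by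
      rw [Metric.mem_ball, dist_eq_norm]
      linarith)
  have hvt : ∀ t ∈ Ioo 0 T, ∀ y, ‖y - a‖ ≤ R' / 2 → vort (v (ν * t)) y = ν⁻¹ • vort (u t) y :=
    fun t ht y hy => vort_evD (hev t ht y hy)
  have hom : ∀ t ∈ Ioo 0 T, ∀ y, ‖y - a‖ ≤ R' / 2 → om (v (ν * t)) y = ν⁻¹ * om (u t) y :=
    fun t ht y hy => om_evD hνi.le (hev t ht y hy)
  have hMor : ∀ t' ∈ Ioo (ν * T₀) (ν * T), MorB K a (R' / 2) (om (v t')) := by
    intro t' ht' x r hr hxr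
    have ht : t' / ν ∈ Ioo T₀ T := time_memK hν ht'
    have htI : t' / ν ∈ Ioo 0 T := ⟨hT₀.trans_lt ht.1, ht.2⟩
    have htν : ν * (t' / ν) = t' := by field_simp
    have h1 := hTI (t' / ν) ht x r hr (by linarith)
    rw [abs_omL]
    have h2 : ∫ y in closedBall x r, om (v t') y = ν⁻¹ * ∫ y in closedBall x r, om (u (t' / ν)) y := by
      refine om_int_eq measurableSet_closedBall fun y hy => ?_
      have h3 : ‖y - a‖ ≤ ‖y - x‖ + ‖x - a‖ := by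
        have e1 : y - a = (y - x) + (x - a) := by abel
        rw [e1]
        exact norm_add_le _ _
      rw [mem_closedBall, dist_eq_norm] at hy
      have h4 := hom (t' / ν) htI y (by linarith)
      rwa [htν] at h4
    rw [h2]
    calc ν⁻¹ * ∫ y in closedBall x r, om (u (t' / ν)) y ≤ ν⁻¹ * (K * ν * r) :=
          mul_le_mul_of_nonneg_left h1 hνi.le
      _ = (ν⁻¹ * ν) * (K * r) := by ring
      _ = K * r := by rw [hνν, one_mul]
  obtain ⟨R₀, hR₀, hR₀ρ, hfin⟩ := H (ν * T) E' (ball a R') v q (mul_pos hν hs.pos) hL (ν * T₀)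
    (R' / 2) a (by positivity) (mul_lt_mul_of_pos_left hT₀T hν) (by positivity)
    (closedBall_subset_ball (by linarith)) hMor (fun hcon =>
      hs.not_bdd (back hν hR' hs.pos hv hcon))
  refine ⟨R₀, hR₀, ?_⟩
  intro r hr
  obtain ⟨hrT, t', ht', hconc, hch⟩ := hfin r hr
  have hr0 := hr.1
  have hrR : r ≤ R' / 2 := hr.2.trans hR₀ρ
  have hrT' : T₀ < T - r ^ 2 / ν := by
    have h1 : ν * T₀ + r ^ 2 < ν * T := by linarith
    have h2 : ν * (T - r ^ 2 / ν) = ν * T - r ^ 2 := by field_simp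
    have h3 : ν * T₀ < ν * (T - r ^ 2 / ν) := by linarith
    exact lt_of_mul_lt_mul_left h3 hν.le
  refine ⟨hrT', ?_⟩
  obtain ⟨t, htd⟩ : ∃ t, t = t' / ν := ⟨_, rfl⟩
  have htν : ν * t = t' := by rw [htd]; field_simp
  have ht1 : T - r ^ 2 / ν < t := by
    have h2 : ν * (T - r ^ 2 / ν) = ν * T - r ^ 2 := by field_simp
    have h3 : ν * (T - r ^ 2 / ν) < ν * t := by rw [h2, htν]; exact ht'.1
    exact lt_of_mul_lt_mul_left h3 hν.le
  have ht2 : t < T - c * r ^ 2 / ν := by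
    have h2 : ν * (T - c * r ^ 2 / ν) = ν * T - c * r ^ 2 := by field_simp
    have h3 : ν * t < ν * (T - c * r ^ 2 / ν) := by rw [h2, htν]; exact ht'.2
    exact lt_of_mul_lt_mul_left h3 hν.le
  have hcr : 0 < c * r ^ 2 / ν := by positivity
  have htI : t ∈ Ioo 0 T := ⟨by linarith, by linarith⟩
  have hνtr : ∀ y, ‖y - a‖ ≤ r → om (v t') y = ν⁻¹ * om (u t) y := by
    intro y hy
    rw [← htν]
    exact hom t htI y (hy.trans hrR)
  refine ⟨t, ⟨ht1, ht2⟩, ?_, ?_⟩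
  · have h2 : ∫ y in closedBall a r, om (v t') y = ν⁻¹ * ∫ y in closedBall a r, om (u t) y := by
      refine om_int_eq measurableSet_closedBall fun y hy => ?_
      rw [mem_closedBall, dist_eq_norm] at hy
      exact hνtr y hy
    rw [h2] at hconc
    have h3 := mul_lt_mul_of_pos_left hconc hν
    calc c * ν * r = ν * (c * r) := by ring
      _ < ν * (ν⁻¹ * ∫ y in closedBall a r, om (u t) y) := h3
      _ = (ν⁻¹ * ν) * ∫ y in closedBall a r, om (u t) y := by ring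
      _ = _ := by rw [hνν, one_mul]
  · intro θ hθ
    have hvr : ∀ y, ‖y - a‖ ≤ r → vort (v t') y = ν⁻¹ • vort (u t) y := by
      intro y hy
      rw [← htν]
      exact hvt t htI y (hy.trans hrR)
    have hθ' : Orient θ a r (vort (v t')) := by
      refine ⟨hθ.1, hθ.2.mono ?_⟩
      rintro y ⟨hy1, hy2⟩
      refine ⟨hy1, fun h0 => hy2 ?_⟩
      rw [hvr y hy1, h0, smul_zero]
    have h1 := hch θ hθ'
    have h2 : Chained (fun y => θ y • vort (u t) y)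
        {y | ‖y - a‖ ≤ r ∧ c / r ^ 2 < om (v t') y} ε := by
      refine h1.congr hνi fun y hy => ?_
      rw [hvr y hy.1, smul_comm]
    refine h2.mono ?_ le_rfl
    rintro y ⟨hy1, hy2⟩
    refine ⟨hy1, ?_⟩
    rw [hνtr y hy1] at hy2
    have h3 := mul_lt_mul_of_pos_left hy2 hν
    calc c * ν / r ^ 2 = ν * (c / r ^ 2) := by ring
      _ < ν * (ν⁻¹ * om (u t) y) := h3
      _ = (ν⁻¹ * ν) * om (u t) y := by ring
      _ = _ := by rw [hνν, one_mul]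

set_option maxHeartbeats 1600000 in
/-- Chains at every concentration of the vorticity, all viscosities. -/
theorem localD : ∀ K η ε : ℝ, 0 < K → 0 < η → 0 < ε → ∃ Λ c : ℝ, 1 ≤ Λ ∧ 0 < c ∧
    ∀ (ν T E : ℝ) (Ω : Set V) (u : ℝ → V → V) (p : ℝ → V → ℝ), 0 < ν → 0 < T →
    DSl ν T E Ω u p →
    ∀ a ∈ Ω, ∀ T₀ R : ℝ, 0 ≤ T₀ → T₀ < T → 0 < R → TI ν K T₀ T a R u →
      ∃ r₀ : ℝ, 0 < r₀ ∧ ∀ t ∈ Ioo (T - r₀) T, ∀ x, ‖x - a‖ ≤ r₀ → ∀ r ∈ Ioc 0 r₀,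
        η * ν * r ≤ ∫ y in closedBall x r, om (u t) y → ∀ θ : V → ℝ,
          Orient θ x (Λ * r) (vort (u t)) →
          Chained (fun y => θ y • vort (u t) y)
            {y | ‖y - x‖ ≤ Λ * r ∧ c * ν / r ^ 2 < om (u t) y} ε := by
  intro K η ε hK hη hε
  obtain ⟨Λ, δ, hΛ, hδ, H⟩ := locChain K η ε hK hη hε
  refine ⟨Λ, δ, hΛ, hδ, ?_⟩
  intro ν T E Ω u p hν hT h a ha T₀ R hT₀ hT₀T hR hTI
  obtain ⟨R', hR', hRR, hsub⟩ := small_ball h.openO ha hR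
  obtain ⟨E', v, q, hL, hv⟩ := Pool.Agent.Q284.CL.dom ν T E Ω u p hν hT h a R' hR' hsub
  have hνi : 0 < ν⁻¹ := inv_pos.2 hν
  have hνν : ν⁻¹ * ν = 1 := inv_mul_cancel₀ hν.ne'
  have hev : ∀ t ∈ Ioo 0 T, ∀ y, ‖y - a‖ ≤ R' / 2 → ∀ᶠ z in 𝓝 y, v (ν * t) z = ν⁻¹ • u t z := by
    intro t ht y hy
    refine ball_ev (a := a) (R := R') (fun z hz => hv t ht z hz) (by
      rw [Metric.mem_ball, dist_eq_norm]
      linarith)
  have hvt : ∀ t ∈ Ioo 0 T, ∀ y, ‖y - a‖ ≤ R' / 2 → vort (v (ν * t)) y = ν⁻¹ • vort (u t) y :=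
    fun t ht y hy => vort_evD (hev t ht y hy)
  have hom : ∀ t ∈ Ioo 0 T, ∀ y, ‖y - a‖ ≤ R' / 2 → om (v (ν * t)) y = ν⁻¹ * om (u t) y :=
    fun t ht y hy => om_evD hνi.le (hev t ht y hy)
  have htri : ∀ x y : V, ‖y - a‖ ≤ ‖y - x‖ + ‖x - a‖ := by
    intro x y
    have e1 : y - a = (y - x) + (x - a) := by abel
    rw [e1]
    exact norm_add_le _ _
  have hMor : ∀ t' ∈ Ioo (ν * T₀) (ν * T), MorB K a (R' / 2) (om (v t')) := by
    intro t' ht' x r hr hxr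
    have ht : t' / ν ∈ Ioo T₀ T := time_memK hν ht'
    have htI : t' / ν ∈ Ioo 0 T := ⟨hT₀.trans_lt ht.1, ht.2⟩
    have htν : ν * (t' / ν) = t' := by field_simp
    have h1 := hTI (t' / ν) ht x r hr (by linarith)
    rw [abs_omL]
    have h2 : ∫ y in closedBall x r, om (v t') y = ν⁻¹ * ∫ y in closedBall x r, om (u (t' / ν)) y := by
      refine om_int_eq measurableSet_closedBall fun y hy => ?_
      have h3 := htri x y
      rw [mem_closedBall, dist_eq_norm] at hy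
      have h4 := hom (t' / ν) htI y (by linarith)
      rwa [htν] at h4
    rw [h2]
    calc ν⁻¹ * ∫ y in closedBall x r, om (u (t' / ν)) y ≤ ν⁻¹ * (K * ν * r) :=
          mul_le_mul_of_nonneg_left h1 hνi.le
      _ = (ν⁻¹ * ν) * (K * r) := by ring
      _ = K * r := by rw [hνν, one_mul]
  obtain ⟨r₁, hr₁, hfin⟩ := H (ν * T) E' (ball a R') v q (mul_pos hν hT) hL (ν * T₀)
    (R' / 2) a (by positivity) (mul_lt_mul_of_pos_left hT₀T hν) (by positivity)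
    (closedBall_subset_ball (by linarith)) hMor
  have hΛ0 : 0 < Λ := by linarith
  obtain ⟨r₀, hr₀d⟩ : ∃ r₀, r₀ = min (min r₁ (r₁ / ν)) (min (min T (R' / 8)) (R' / (8 * Λ))) :=
    ⟨_, rfl⟩
  have hr₀ : 0 < r₀ := by
    rw [hr₀d]
    exact lt_min (lt_min hr₁ (by positivity)) (lt_min (lt_min hT (by positivity))
      (by positivity))
  have m1 : r₀ ≤ r₁ := by rw [hr₀d]; exact (min_le_left _ _).trans (min_le_left _ _)
  have m2 : r₀ ≤ r₁ / ν := by rw [hr₀d]; exact (min_le_left _ _).trans (min_le_right _ _)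
  have m3 : r₀ ≤ T := by
    rw [hr₀d]; exact (min_le_right _ _).trans ((min_le_left _ _).trans (min_le_left _ _))
  have m4 : r₀ ≤ R' / 8 := by
    rw [hr₀d]; exact (min_le_right _ _).trans ((min_le_left _ _).trans (min_le_right _ _))
  have m5 : r₀ ≤ R' / (8 * Λ) := by rw [hr₀d]; exact (min_le_right _ _).trans (min_le_right _ _)
  have m6 : Λ * r₀ ≤ R' / 8 := by
    rw [le_div_iff₀ (by positivity)] at m5
    linarith
  refine ⟨r₀, hr₀, ?_⟩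
  intro t ht x hxa r hr hconc θ hθ
  have htI : t ∈ Ioo 0 T := ⟨by linarith [ht.1], ht.2⟩
  have hr0 := hr.1
  have hΛr : Λ * r ≤ R' / 8 := (mul_le_mul_of_nonneg_left hr.2 hΛ0.le).trans m6
  have ht' : ν * t ∈ Ioo (ν * T - r₁) (ν * T) := by
    refine ⟨?_, mul_lt_mul_of_pos_left ht.2 hν⟩
    have h1 : ν * r₀ ≤ r₁ := by
      rw [le_div_iff₀ hν] at m2
      linarith
    have h2 : ν * (T - r₀) < ν * t := mul_lt_mul_of_pos_left ht.1 hν
    have h3 : ν * (T - r₀) = ν * T - ν * r₀ := by ring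
    linarith
  have hnear : ∀ y, ‖y - x‖ ≤ Λ * r → ‖y - a‖ ≤ R' / 2 := by
    intro y hy
    have := htri x y
    linarith
  have hrΛ : r ≤ Λ * r := le_mul_of_one_le_left hr0.le hΛ
  have hconc' : η * r ≤ ∫ y in closedBall x r, om (v (ν * t)) y := by
    have h2 : ∫ y in closedBall x r, om (v (ν * t)) y = ν⁻¹ * ∫ y in closedBall x r, om (u t) y := by
      refine om_int_eq measurableSet_closedBall fun y hy => ?_
      rw [mem_closedBall, dist_eq_norm] at hy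
      exact hom t htI y (hnear y (hy.trans hrΛ))
    rw [h2]
    have h3 := mul_le_mul_of_nonneg_left hconc hνi.le
    calc η * r = (ν⁻¹ * ν) * (η * r) := by rw [hνν, one_mul]
      _ = ν⁻¹ * (η * ν * r) := by ring
      _ ≤ _ := h3
  have hθ' : Orient θ x (Λ * r) (vort (v (ν * t))) := by
    refine ⟨hθ.1, hθ.2.mono ?_⟩
    rintro y ⟨hy1, hy2⟩
    refine ⟨hy1, fun h0 => hy2 ?_⟩
    rw [hvt t htI y (hnear y hy1), h0, smul_zero]
  have h1 := hfin (ν * t) ht' x (by linarith) r ⟨hr0, hr.2.trans m1⟩ hconc' θ hθ'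
  have h2 : Chained (fun y => θ y • vort (u t) y)
      {y | ‖y - x‖ ≤ Λ * r ∧ δ / r ^ 2 < om (v (ν * t)) y} ε := by
    refine h1.congr hνi fun y hy => ?_
    rw [hvt t htI y (hnear y hy.1), smul_comm]
  refine h2.mono ?_ le_rfl
  rintro y ⟨hy1, hy2⟩
  refine ⟨hy1, ?_⟩
  rw [hom t htI y (hnear y hy1)] at hy2
  have h3 := mul_lt_mul_of_pos_left hy2 hν
  calc δ * ν / r ^ 2 = ν * (δ / r ^ 2) := by ring
    _ < ν * (ν⁻¹ * om (u t) y) := h3
    _ = (ν⁻¹ * ν) * om (u t) y := by ring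
    _ = _ := by rw [hνν, one_mul]

end Pool.Agent.U481.TY
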