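import Pool.Agent.U481.TY.Near

/-!
Critical vortex chains: the terms of the local energy identity at one time. The theorem `master2` is
`Pool.Agent.Q16.CL.master` with a more general bound of the velocity.
-/

set_option autoImplicit false

open MeasureTheory Set Metric Filter Topology
open scoped ContDiff
open H459R3.NS Pool.Agent.W268.NS Pool.Agent.Q67.VD
open Pool.Agent.Q85.CC Pool.Agent.Q85.CL Pool.Agent.Q16.CC Pool.Agent.Q16.CL

namespace Pool.Agent.U481.TY

set_option maxHeartbeats 1600000 in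
theorem master2 {CV CD : ℝ} (hCV : 0 < CV) (hCD : 0 < CD) (hDec : DecC CD) {D K ρ : ℝ} (hD : 0 < D)
    (hK : 0 ≤ K) (hρ : 0 < ρ) {v : V → V} {q : V → ℝ} {m Q : ℝ} {x : V} (hv : SM v)
    (hq : ContDiff ℝ ∞ q) (hdf : DFO (ball x ρ) v)
    (hlap : ∀ y ∈ ball x ρ, lap q y = ∑ i, pd i (fun z => crossProduct (v z) (vort v z) i) y)
    (hMor : MorB K x ρ (om v))
    (hQ : ∫ y in closedBall x ρ, |q y - m| ≤ Q) {n : ℕ} (hn : 6 ≤ n) {φ : V → ℝ} (hφ : ContDiff ℝ ∞ φ)
    (hsupp : ∀ y, φ y ≠ 0 → ‖y - x‖ ≤ 2 * (ρ / 2 ^ n)) (hpd : ∀ y i, |pd i φ y| ≤ D / (ρ / 2 ^ n))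
    (hlapφ : ∀ y, |lap φ y| ≤ D / (ρ / 2 ^ n) ^ 2) {A X : ℕ → ℝ} (hA0 : ∀ j, 0 ≤ A j)
    (hA : ∀ j ≤ n - 3, ∀ y ∈ closedBall x (4 * (2 ^ j * (ρ / 2 ^ n))), ∀ i,
      |v y i| ≤ CV * (pot (2 ^ j * (ρ / 2 ^ n)) (om v) y + A j / (2 ^ j * (ρ / 2 ^ n))))
    (hX : ∀ j ≤ n - 3, NT (om v) x (2 ^ j * (ρ / 2 ^ n)) (A j) ≤ X j) :
    |∫ y, W221.NS.nsq v y * lap φ y| + |2 * ∫ y, q y * W221.NS.adv v φ y| +
      (∫ y in closedBall x (2 * (ρ / 2 ^ n)), W221.NS.nsq v y) / (ρ / 2 ^ n) ^ 2 ≤
    (3 * CV ^ 2 * (D + 1) + 36 * CD * CV ^ 2 * D) * X 0 + 36 * CV * (72 * K + 64 * A 0) * D * CD *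
      (48 * CV * (∑ j ∈ Finset.range (n - 2), (1 / 4 : ℝ) ^ j * X j) + (ρ / 2 ^ n) ^ 2 * (Q / (ρ / 8) ^ 4)) := by
  obtain ⟨r, hrdef⟩ : ∃ r : ℝ, r = ρ / 2 ^ n := ⟨_, rfl⟩
  rw [← hrdef] at hsupp hpd hlapφ hA hX ⊢
  have hr : 0 < r := by rw [hrdef]; positivity
  have h2n : ρ = 2 ^ n * r := by rw [hrdef]; field_simp
  obtain ⟨f, hf⟩ : ∃ f : V → ℝ, f = om v := ⟨_, rfl⟩
  rw [← hf] at hX
  have hfc : Continuous f := by rw [hf]; exact om_contL hv
  have hf0 : ∀ y, 0 ≤ f y := fun y => by rw [hf]; exact Pool.Agent.Q199.VD.om_nonneg v y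
  -- the majorants
  obtain ⟨w, hw⟩ : ∃ w : ℕ → V → ℝ, w = fun j y => pot (2 ^ j * r) f y + A j / (2 ^ j * r) := ⟨_, rfl⟩
  have hwc : ∀ j, Continuous (w j) := fun j => by rw [hw]; exact (pot_contL hfc _).add continuous_const
  have hw0 : ∀ j, ∀ y, 0 ≤ w j y := fun j y => by
    rw [hw]
    exact add_nonneg (pot_nonneg f _ y) (div_nonneg (hA0 j) (by positivity))
  -- the scales
  have hscale : ∀ j ≤ n - 3, 8 * (2 ^ j * r) ≤ ρ := by
    intro j hj
    have h1 : (2 : ℝ) ^ j * 8 ≤ 2 ^ n := by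
      have : (2 : ℝ) ^ j * 2 ^ 3 ≤ 2 ^ n := by
        rw [← pow_add]
        exact pow_le_pow_right₀ (by norm_num) (by omega)
      linarith
    rw [h2n]
    nlinarith
  have hvw : ∀ j ≤ n - 3, ∀ y ∈ closedBall x (4 * (2 ^ j * r)), ∀ i, |v y i| ≤ CV * w j y := by
    intro j hj y hy i
    refine (hA j hj y hy i).trans (le_of_eq ?_)
    rw [hw, ← hf]
  obtain ⟨F, hF⟩ : ∃ F : ℕ → ℝ, F = X := ⟨_, rfl⟩
  have hfw : ∀ j, Continuous fun y => f y * w j y := fun j => hfc.mul (hwc j)
  have hnear : ∀ j ≤ n - 3,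
      (∫ y in closedBall x (4 * (2 ^ j * r)), w j y ^ 2) / (2 ^ j * r) ^ 2 ≤ X j ∧
      (∫ y in closedBall x (4 * (2 ^ j * r)), w j y * pot (2 ^ j * r) (fun z => f z * w j z) y) /
        (2 ^ j * r) ≤ X j ∧
      (∫ y in closedBall x (4 * (2 ^ j * r)), f y * w j y) / (2 ^ j * r) ≤ X j ∧ 0 ≤ X j := by
    intro j hj
    have hs : 0 < 2 ^ j * r := by positivity
    have h1 := hX j hj
    have e1 : ∀ y, pot (2 ^ j * r) f y + A j / (2 ^ j * r) = w j y := fun y => by rw [hw]
    unfold NT at h1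
    simp only [e1] at h1
    have t1 : 0 ≤ (∫ y in closedBall x (4 * (2 ^ j * r)), w j y ^ 2) / (2 ^ j * r) ^ 2 :=
      div_nonneg (integral_nonneg fun y => sq_nonneg _) (by positivity)
    have t2 : 0 ≤ (∫ y in closedBall x (4 * (2 ^ j * r)), w j y *
        pot (2 ^ j * r) (fun z => f z * w j z) y) / (2 ^ j * r) :=
      div_nonneg (integral_nonneg fun y => mul_nonneg (hw0 _ y) (pot_nonneg _ _ _)) hs.le
    have t3 : 0 ≤ (∫ y in closedBall x (4 * (2 ^ j * r)), f y * w j y) / (2 ^ j * r) :=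
      div_nonneg (integral_nonneg fun y => mul_nonneg (hf0 y) (hw0 _ y)) hs.le
    exact ⟨by linarith, by linarith, by linarith, by linarith⟩
  obtain ⟨n1, n2, n3, n4⟩ := hnear 0 (Nat.zero_le _)
  have hvw0 : ∀ y ∈ closedBall x (4 * r), ∀ i, |v y i| ≤ CV * w 0 y := by
    have h := hvw 0 (Nat.zero_le _)
    rwa [pow_zero, one_mul] at h
  rw [pow_zero, one_mul] at n1 n2
  have h8r : 8 * r ≤ ρ := by
    have := hscale 0 (Nat.zero_le _)
    rwa [pow_zero, one_mul] at this
  have hrρ : r ≤ ρ := by linarith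
  obtain ⟨NN, hNN⟩ : ∃ NN : ℝ, NN = X 0 := ⟨_, rfl⟩
  rw [← hNN] at n1 n2 n4
  have hsub : closedBall x (2 * r) ⊆ closedBall x (4 * r) := closedBall_subset_closedBall (by linarith)
  have hvc : ∀ i, Continuous fun y => v y i := fun i => (hv i).continuous
  -- |v|² on the ball
  have hnsq : ∀ y ∈ closedBall x (4 * r), W221.NS.nsq v y ≤ 3 * CV ^ 2 * w 0 y ^ 2 := by
    intro y hy
    unfold W221.NS.nsq
    have h1 : ∀ i ∈ (Finset.univ : Finset (Fin 3)), v y i ^ 2 ≤ (CV * w 0 y) ^ 2 := fun i _ => by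
      rw [← sq_abs (v y i)]
      exact pow_le_pow_left₀ (abs_nonneg _) (hvw0 y hy i) 2
    refine (Finset.sum_le_sum h1).trans ?_
    rw [Finset.sum_const, Finset.card_univ, Fintype.card_fin, nsmul_eq_mul]
    push_cast
    linarith
  have hnsq0 : ∀ y, 0 ≤ W221.NS.nsq v y := fun y => Finset.sum_nonneg fun i _ => sq_nonneg _
  have hI2 : ∫ y in closedBall x (2 * r), W221.NS.nsq v y ≤ 3 * CV ^ 2 * (r ^ 2 * NN) := by
    have h1 : ∫ y in closedBall x (2 * r), W221.NS.nsq v y ≤ ∫ y in closedBall x (4 * r), 3 * CV ^ 2 * w 0 y ^ 2 := by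
      refine (setIntegral_mono_set (integrableOn_ball (nsq_contL hv) _ _) (Eventually.of_forall hnsq0)
        (Eventually.of_forall hsub)).trans ?_
      exact setIntegral_mono_on (integrableOn_ball (nsq_contL hv) _ _)
        (integrableOn_ball (continuous_const.mul ((hwc 0).pow 2)) _ _) measurableSet_closedBall
        fun y hy => hnsq y hy
    rw [integral_const_mul] at h1
    refine h1.trans (mul_le_mul_of_nonneg_left ?_ (by positivity))
    rw [div_le_iff₀ (by positivity)] at n1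
    linarith
  have hT3 : (∫ y in closedBall x (2 * r), W221.NS.nsq v y) / r ^ 2 ≤ 3 * CV ^ 2 * NN := by
    rw [div_le_iff₀ (by positivity)]
    linarith
  have hT1 : |∫ y, W221.NS.nsq v y * lap φ y| ≤ 3 * CV ^ 2 * D * NN := by
    have h1 := int_off (F := fun y => W221.NS.nsq v y * lap φ y) (g := fun y => D / r ^ 2 * W221.NS.nsq v y)
      (x := x) (R := 2 * r) (fun y hy => by rw [lap_off hsupp hy, mul_zero])
      (integrableOn_ball (continuous_const.mul (nsq_contL hv)) _ _) (fun y _ => by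
        rw [abs_mul, abs_of_nonneg (hnsq0 y), mul_comm]
        exact mul_le_mul_of_nonneg_right (hlapφ y) (hnsq0 y))
    rw [integral_const_mul] at h1
    refine h1.trans ?_
    calc D / r ^ 2 * ∫ y in closedBall x (2 * r), W221.NS.nsq v y ≤ D / r ^ 2 * (3 * CV ^ 2 * (r ^ 2 * NN)) := by
          gcongr
      _ = 3 * CV ^ 2 * D * NN := by field_simp
  -- the transport term
  have hadvc : Continuous (W221.NS.adv v φ) := by
    unfold W221.NS.adv
    refine continuous_finsetSum _ fun i _ => (hvc i).mul ?_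
    exact (hφ.continuous_fderiv (by norm_num)).clm_apply continuous_const
  have hadv0 : ∀ y, y ∉ closedBall x (2 * r) → W221.NS.adv v φ y = 0 := by
    intro y hy
    unfold W221.NS.adv
    exact Finset.sum_eq_zero fun j _ => by rw [pd_off hsupp hy, mul_zero]
  have hadv : ∀ y ∈ closedBall x (2 * r), |W221.NS.adv v φ y| ≤ 3 * CV * D / r * w 0 y := by
    intro y hy
    unfold W221.NS.adv
    refine (Finset.abs_sum_le_sum_abs _ _).trans ?_
    have h1 : ∀ j ∈ (Finset.univ : Finset (Fin 3)), |v y j * pd j φ y| ≤ (CV * w 0 y) * (D / r) := fun j _ => by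
      rw [abs_mul]
      exact mul_le_mul (hvw0 y (hsub hy) j) (hpd y j) (abs_nonneg _) (mul_nonneg hCV.le (hw0 0 y))
    refine (Finset.sum_le_sum h1).trans (le_of_eq ?_)
    rw [Finset.sum_const, Finset.card_univ, Fintype.card_fin, nsmul_eq_mul]
    push_cast
    ring
  have hcs : HasCompactSupport φ := cs_of hsupp
  have hadvcs : HasCompactSupport (W221.NS.adv v φ) := by
    refine HasCompactSupport.intro (isCompact_closedBall x (2 * r)) hadv0
  have hadvI : ∫ y, W221.NS.adv v φ y = 0 := by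
    unfold W221.NS.adv
    have hint : ∀ j ∈ (Finset.univ : Finset (Fin 3)), Integrable fun y => v y j * pd j φ y := fun j _ => by
      refine ((hvc j).mul ((hφ.continuous_fderiv (by norm_num)).clm_apply
        continuous_const)).integrable_of_hasCompactSupport ?_
      exact HasCompactSupport.mul_left (hcs.fderiv_apply (𝕜 := ℝ) _)
    rw [integral_finsetSum _ hint]
    have h1 : ∀ j : Fin 3, ∫ y, v y j * pd j φ y = -∫ y, φ y * pd j (fun z => v z j) y := by
      intro j
      rw [Pool.Agent.Q199.VD.ibp_cut (hφ.of_le (by norm_cast)) hcs ((hv j).of_le (by norm_cast)) j, neg_neg]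
      congr 1
      funext y
      ring
    simp only [h1]
    rw [Finset.sum_neg_distrib, ← integral_finsetSum]
    · have h2 : ∀ y, ∑ j, φ y * pd j (fun z => v z j) y = 0 := fun y => by
        rw [← Finset.mul_sum]
        by_cases hy : φ y = 0
        · rw [hy, zero_mul]
        · rw [hdf y, mul_zero]
          rw [mem_ball, dist_eq_norm]
          linarith [hsupp y hy]
      simp only [h2, integral_zero, neg_zero]
    · intro j _
      exact (hφ.continuous.mul (pd_contL (hv j) j)).integrable_of_hasCompactSupport hcs.mul_right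
  -- the decomposition of the pressure
  obtain ⟨g, hg⟩ : ∃ g : V → ℝ, g = fun y => q y - m := ⟨_, rfl⟩
  have hgs : ContDiff ℝ ∞ g := by
    rw [hg]
    exact hq.sub contDiff_const
  have hpdg : ∀ j, pd j g = pd j q := by
    intro j
    funext y
    rw [hg]
    unfold pd
    rw [fderiv_sub_const]
  have hlapg : ∀ y ∈ ball x (3 * (ρ / 8)), lap g y = ∑ i, pd i (fun z => crossProduct (v z) (vort v z) i) y := by
    intro y hy
    rw [← hlap y (ball_subset_ball (by linarith) hy)]
    unfold lap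
    simp only [hpdg]
  have hL8 : r ≤ ρ / 8 := by linarith
  have hGs : ∀ i, ContDiff ℝ ∞ (fun y => crossProduct (v y) (vort v y) i) := cross_smooth hv
  obtain ⟨g₂, hg₂, hd1, hd2⟩ := hDec r (ρ / 8) g (fun i y => crossProduct (v y) (vort v y) i) x hr hL8
    hgs hGs hlapg
  have hG : ∀ j ≤ n - 3, ∀ i, ∀ y ∈ closedBall x (4 * (2 ^ j * r)),
      |crossProduct (v y) (vort v y) i| ≤ 2 * CV * (f y * w j y) := by
    intro j hj i y hy
    have h1 := cross_abs_le (a := v y) (b := vort v y) (A := CV * w j y) (B := f y) (hvw j hj y hy)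
      (fun i => by rw [hf]; exact Pool.Agent.Q199.VD.abs_le_len _ i) i
    refine h1.trans (le_of_eq ?_)
    ring
  -- first part: `g - g₂`
  have h16 : 64 * r ≤ ρ := by
    rw [h2n]
    have : (2 : ℝ) ^ 6 ≤ 2 ^ n := pow_le_pow_right₀ (by norm_num) hn
    nlinarith
  have hpotG : ∀ i, ∀ y ∈ closedBall x (2 * r), pot r (fun z => crossProduct (v z) (vort v z) i) y ≤
      2 * CV * pot r (fun z => f z * w 0 z) y := by
    intro i y hy
    refine pot_monoL (hGs i).continuous (hfw 0) fun z hz => ?_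
    rw [abs_of_nonneg (mul_nonneg (hf0 _) (hw0 0 _))]
    exact hG 0 (Nat.zero_le _) i _ (closedBall_subset_closedBall (by rw [pow_zero, one_mul]; linarith) (mem_add hy hz))
  have hwpc : Continuous (pot r (fun z => f z * w 0 z)) := pot_contL (hfw 0) r
  have hsubL : closedBall x (2 * r) ⊆ closedBall x (ρ / 8) := closedBall_subset_closedBall (by linarith)
  have hP1 : |∫ y, (g y - g₂ y) * W221.NS.adv v φ y| ≤ 18 * CD * CV ^ 2 * D * NN := by
    have h1 := int_off (F := fun y => (g y - g₂ y) * W221.NS.adv v φ y)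
      (g := fun y => 18 * CD * CV ^ 2 * D / r * (w 0 y * pot r (fun z => f z * w 0 z) y)) (x := x) (R := 2 * r)
      (fun y hy => by rw [hadv0 y hy, mul_zero])
      (integrableOn_ball (continuous_const.mul ((hwc 0).mul hwpc)) _ _) (fun y hy => by
        rw [abs_mul]
        have h2 : |g y - g₂ y| ≤ 6 * CD * CV * pot r (fun z => f z * w 0 z) y := by
          refine (hd1 y (hsubL hy)).trans ?_
          have h3 : ∑ i, pot r ((fun i y => crossProduct (v y) (vort v y) i) i) y ≤
              ∑ _i : Fin 3, 2 * CV * pot r (fun z => f z * w 0 z) y := Finset.sum_le_sum fun i _ => hpotG i y hy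
          rw [Finset.sum_const, Finset.card_univ, Fintype.card_fin, nsmul_eq_mul] at h3
          push_cast at h3
          calc CD * ∑ i, pot r ((fun i y => crossProduct (v y) (vort v y) i) i) y ≤
                CD * (3 * (2 * CV * pot r (fun z => f z * w 0 z) y)) := mul_le_mul_of_nonneg_left h3 hCD.le
            _ = _ := by ring
        have h4 : 0 ≤ 6 * CD * CV * pot r (fun z => f z * w 0 z) y :=
          mul_nonneg (by positivity) (pot_nonneg _ _ _)
        refine (mul_le_mul h2 (hadv y hy) (abs_nonneg _) h4).trans (le_of_eq ?_)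
        ring)
    refine h1.trans ?_
    have h5 : ∫ y in closedBall x (2 * r), 18 * CD * CV ^ 2 * D / r * (w 0 y * pot r (fun z => f z * w 0 z) y) ≤
        ∫ y in closedBall x (4 * r), 18 * CD * CV ^ 2 * D / r * (w 0 y * pot r (fun z => f z * w 0 z) y) :=
      setIntegral_mono_set (integrableOn_ball (continuous_const.mul ((hwc 0).mul hwpc)) _ _)
        (Eventually.of_forall fun y => mul_nonneg (by positivity) (mul_nonneg (hw0 0 y) (pot_nonneg _ _ _)))
        (Eventually.of_forall hsub)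
    refine h5.trans ?_
    rw [integral_const_mul]
    calc 18 * CD * CV ^ 2 * D / r * (∫ y in closedBall x (4 * r), w 0 y * pot r (fun z => f z * w 0 z) y) =
          18 * CD * CV ^ 2 * D * ((∫ y in closedBall x (4 * r), w 0 y * pot r (fun z => f z * w 0 z) y) / r) := by ring
      _ ≤ 18 * CD * CV ^ 2 * D * NN := by gcongr
  -- second part: `g₂`
  obtain ⟨S0, hS0⟩ : ∃ S0 : ℝ, S0 = ∑ j ∈ Finset.range (n - 2), (1 / 4 : ℝ) ^ j * X j := ⟨_, rfl⟩
  have hfar : ∀ y ∈ closedBall x (2 * r), ∀ i, far r (ρ / 8) (fun z => crossProduct (v z) (vort v z) i) y ≤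
      16 * CV * (S0 / r ^ 2) := by
    intro y hy i
    have h1 := far_le (hGs i).continuous y hr (n - 2)
    have e1 : 2 ^ (n - 2) * (r / 2) = ρ / 8 := by
      obtain ⟨k, rfl⟩ : ∃ k, n = k + 2 := ⟨n - 2, by omega⟩
      rw [h2n, Nat.add_sub_cancel, pow_add]
      ring
    rw [e1] at h1
    unfold far
    refine h1.trans ?_
    rw [hS0, Finset.sum_div, Finset.mul_sum]
    refine Finset.sum_le_sum fun j hj => ?_
    rw [Finset.mem_range] at hj
    have hj' : j ≤ n - 3 := by omega
    obtain ⟨s, hs⟩ : ∃ s : ℝ, s = 2 ^ j * r := ⟨_, rfl⟩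
    have hs0 : 0 < s := by rw [hs]; positivity
    have hs8 := hscale j hj'
    rw [← hs] at hs8
    have h2j : (1 : ℝ) ≤ 2 ^ j := one_le_pow₀ (by norm_num)
    have hrs : r ≤ s := by rw [hs]; nlinarith
    have hsub2 : closedBall y s ⊆ closedBall x (4 * s) := by
      intro z hz
      rw [mem_closedBall] at hz hy ⊢
      linarith [dist_triangle z y x]
    have h3 : ∫ z in closedBall y s, |crossProduct (v z) (vort v z) i| ≤
        2 * CV * ∫ z in closedBall x (4 * s), f z * w j z := by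
      rw [← integral_const_mul]
      refine (setIntegral_mono_set (integrableOn_ball (hGs i).continuous.abs _ _)
        (Eventually.of_forall fun z => abs_nonneg _)
        (Eventually.of_forall hsub2)).trans ?_
      exact setIntegral_mono_on (integrableOn_ball (hGs i).continuous.abs _ _)
        (integrableOn_ball (continuous_const.mul (hfw j)) _ _) measurableSet_closedBall
        fun z hz => hG j hj' i z (by rw [← hs]; exact hz)
    have h4 := (hnear j hj').2.2.1
    rw [← hs, div_le_iff₀ hs0] at h4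
    rw [← hs]
    calc 8 / s ^ 3 * ∫ z in closedBall y s, |crossProduct (v z) (vort v z) i| ≤
          8 / s ^ 3 * (2 * CV * (X j * s)) := by
          gcongr
          exact h3.trans (by gcongr)
      _ = 16 * CV * (X j / s ^ 2) := by field_simp; ring
      _ = 16 * CV * ((1 / 4) ^ j * X j / r ^ 2) := by
          have e2 : (1 / 4 : ℝ) ^ j = 1 / (2 ^ j) ^ 2 := by
            rw [one_div, inv_pow, ← pow_mul, mul_comm, pow_mul]
            norm_num
          rw [e2, hs]
          field_simp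
  have hgI : ∀ y ∈ closedBall x (2 * r), ∫ z in closedBall (0 : V) (ρ / 8), |g (y + z)| ≤ Q := by
    intro y hy
    rw [int_tr (fun z => |g z|) y (ρ / 8)]
    have hs1 : closedBall y (ρ / 8) ⊆ closedBall x ρ := by
      intro z hz
      rw [mem_closedBall] at hz hy ⊢
      linarith [dist_triangle z y x]
    refine (setIntegral_mono_set (integrableOn_ball hgs.continuous.abs x ρ) (Eventually.of_forall fun z => abs_nonneg _)
      (Eventually.of_forall hs1)).trans ?_
    rw [hg]
    exact hQ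
  obtain ⟨S, hS⟩ : ∃ S : ℝ, S = CD * (48 * CV * (S0 / r ^ 2) + Q / (ρ / 8) ^ 4) := ⟨_, rfl⟩
  have hgrad : ∀ y ∈ closedBall x (2 * r), ∀ j, |pd j g₂ y| ≤ S := by
    intro y hy j
    refine (hd2 y (hsubL hy) j).trans ?_
    rw [hS]
    refine mul_le_mul_of_nonneg_left ?_ hCD.le
    have h1 : ∑ i, far r (ρ / 8) ((fun i y => crossProduct (v y) (vort v y) i) i) y ≤
        ∑ _i : Fin 3, 16 * CV * (S0 / r ^ 2) := Finset.sum_le_sum fun i _ => hfar y hy i
    rw [Finset.sum_const, Finset.card_univ, Fintype.card_fin, nsmul_eq_mul] at h1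
    push_cast at h1
    have h2 : (∫ z in closedBall (0 : V) (ρ / 8), |g (y + z)|) / (ρ / 8) ^ 4 ≤ Q / (ρ / 8) ^ 4 := by
      gcongr
      exact hgI y hy
    linarith
  have hSnn : 0 ≤ S := (abs_nonneg _).trans (hgrad x (mem_closedBall_self (by positivity)) 0)
  have hwI : ∫ y in closedBall x (2 * r), w 0 y ≤ (72 * K + 64 * A 0) * r ^ 2 := by
    have e1 : ∫ y in closedBall x (2 * r), w 0 y = (∫ y in closedBall x (2 * r), pot r f y) +
        ∫ _y in closedBall x (2 * r), A 0 / r := by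
      rw [hw]
      simp only [pow_zero, one_mul]
      exact integral_add (integrableOn_ball (pot_contL hfc r) _ _) (integrableOn_ball continuous_const _ _)
    rw [e1, setIntegral_const, vol_ball_real x (by positivity), smul_eq_mul]
    have hM3 : ∫ y in closedBall x (2 * r + r), |f y| ≤ K * (3 * r) := by
      have := hMor x (2 * r + r) (by positivity) (by rw [sub_self, norm_zero]; linarith)
      rw [← hf] at this
      refine this.trans (le_of_eq (by ring))
    have h1 := int_pot_leL hfc x hr hM3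
    have e2 : (2 * (2 * r)) ^ 3 * (A 0 / r) = 64 * A 0 * r ^ 2 := by
      field_simp
      ring
    rw [e2]
    nlinarith
  have hP2 : |∫ y, (g₂ y - g₂ x) * W221.NS.adv v φ y| ≤ 18 * CV * (72 * K + 64 * A 0) * D * (r ^ 2 * S) := by
    have h1 := int_off (F := fun y => (g₂ y - g₂ x) * W221.NS.adv v φ y)
      (g := fun y => 18 * CV * D * S * w 0 y) (x := x) (R := 2 * r)
      (fun y hy => by rw [hadv0 y hy, mul_zero])
      (integrableOn_ball (continuous_const.mul (hwc 0)) _ _) (fun y hy => by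
        rw [abs_mul]
        have h2 := mv_ball hg₂ (by positivity : 0 ≤ 2 * r) hgrad hy
        refine (mul_le_mul h2 (hadv y hy) (abs_nonneg _) (by positivity)).trans (le_of_eq ?_)
        field_simp
        ring)
    refine h1.trans ?_
    rw [integral_const_mul]
    calc 18 * CV * D * S * ∫ y in closedBall x (2 * r), w 0 y ≤ 18 * CV * D * S * ((72 * K + 64 * A 0) * r ^ 2) := by
          gcongr
      _ = _ := by ring
  -- the identity
  have hi1 : Integrable fun y => (g y - g₂ y) * W221.NS.adv v φ y :=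
    ((hgs.continuous.sub hg₂.continuous).mul hadvc).integrable_of_hasCompactSupport hadvcs.mul_left
  have hi2 : Integrable fun y => (g₂ y - g₂ x) * W221.NS.adv v φ y :=
    ((hg₂.continuous.sub continuous_const).mul hadvc).integrable_of_hasCompactSupport hadvcs.mul_left
  have hi3 : Integrable fun y => (m + g₂ x) * W221.NS.adv v φ y :=
    (continuous_const.mul hadvc).integrable_of_hasCompactSupport hadvcs.mul_left
  have hid : ∫ y, q y * W221.NS.adv v φ y = (∫ y, (g y - g₂ y) * W221.NS.adv v φ y) +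
      ∫ y, (g₂ y - g₂ x) * W221.NS.adv v φ y := by
    have e1 : ∀ y, q y * W221.NS.adv v φ y = ((g y - g₂ y) * W221.NS.adv v φ y +
        (g₂ y - g₂ x) * W221.NS.adv v φ y) + (m + g₂ x) * W221.NS.adv v φ y := by
      intro y
      rw [hg]
      ring
    simp only [e1]
    have hi12 : Integrable fun y => (g y - g₂ y) * W221.NS.adv v φ y + (g₂ y - g₂ x) * W221.NS.adv v φ y :=
      hi1.add hi2
    rw [integral_add hi12 hi3, integral_add hi1 hi2, integral_const_mul, hadvI, mul_zero, add_zero]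
  have hT2 : |2 * ∫ y, q y * W221.NS.adv v φ y| ≤ 36 * CD * CV ^ 2 * D * NN +
      36 * CV * (72 * K + 64 * A 0) * D * (r ^ 2 * S) := by
    rw [hid, abs_mul, abs_two]
    have h1 := abs_add_le (∫ y, (g y - g₂ y) * W221.NS.adv v φ y) (∫ y, (g₂ y - g₂ x) * W221.NS.adv v φ y)
    linarith
  -- the end
  rw [← hS0, ← hNN]
  have e1 : 36 * CV * (72 * K + 64 * A 0) * D * (r ^ 2 * S) =
      36 * CV * (72 * K + 64 * A 0) * D * CD * (48 * CV * S0 + r ^ 2 * (Q / (ρ / 8) ^ 4)) := by
    rw [hS]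
    field_simp
  have e2 : (3 * CV ^ 2 * (D + 1) + 36 * CD * CV ^ 2 * D) * NN =
      3 * CV ^ 2 * D * NN + 36 * CD * CV ^ 2 * D * NN + 3 * CV ^ 2 * NN := by ring
  rw [← e1, e2]
  linarith

end Pool.Agent.U481.TY
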