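import Pool.Agent.Q81.CC.Near
import Pool.Agent.Q16.CL.FlxL

/-!
Critical vortex chains: the near estimate with a small integral at one scale. Adapted from
`Pool.Agent.Q81.CC.Glob`, `Pool.Agent.Q81.CC.Near` and `Pool.Agent.Q16.CL.FlxL0`.
-/

set_option autoImplicit false

open MeasureTheory Set Metric
open scoped ENNReal
open H459R3.NS Pool.Agent.W268.NS Pool.Agent.Q67.VD Pool.Agent.Q85.CC

namespace Pool.Agent.U481.TY

open Pool.Agent.Q81.CC

/-- the three estimates, with the total integral `m` -/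
theorem glob2 (K : ℝ) (hK : 0 ≤ K) : ∃ c : ℝ, 0 ≤ c ∧ ∀ (m t : ℝ) (g : W → ℝ≥0∞), 0 ≤ m → 0 ≤ t →
    Measurable g →
    (∀ (y : W) (s : ℝ), 0 < s → s ≤ 2 → ∫⁻ z in closedBall y s, g z ≤ ENNReal.ofReal (K * s)) →
    ∫⁻ z, g z ≤ ENNReal.ofReal m →
    ∫⁻ z, g z ^ 2 ≤ ENNReal.ofReal (t ^ 8) →
    ∫⁻ y, cv g y ^ 2 ≤ ENNReal.ofReal (c * t ^ 2 * m) ∧
    ∫⁻ y, g y * cv g y ≤ ENNReal.ofReal (√(c * m) * t ^ 5) ∧
    ∀ A : ℝ≥0∞, ∫⁻ y, (cv g y + A) * cv (fun z => g z * (cv g z + A)) y ≤
      (ENNReal.ofReal (c * t ^ 2) + A * k1) *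
        (ENNReal.ofReal (√(c * m) * t ^ 5) + A * ENNReal.ofReal m) := by
  obtain ⟨c, hc, h⟩ := q_bd K hK
  refine ⟨c, hc, ?_⟩
  intro m t g hm ht hg hM hI hD
  have hq := h t g ht hg hM hD
  have hp := cv_meas hg
  have h1 : ∫⁻ y, cv g y ^ 2 ≤ ENNReal.ofReal (c * t ^ 2 * m) := by
    have e : ∫⁻ y, cv g y ^ 2 = ∫⁻ y, cv (cv g) y * g y := by
      rw [← cv_symm hp hg]
      refine lintegral_congr fun y => ?_
      rw [sq]
    rw [e]
    calc ∫⁻ y, cv (cv g) y * g y ≤ ∫⁻ y, ENNReal.ofReal (c * t ^ 2) * g y :=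
          lintegral_mono fun y => mul_le_mul_left (hq y) _
      _ = ENNReal.ofReal (c * t ^ 2) * ∫⁻ y, g y := lintegral_const_mul _ hg
      _ ≤ ENNReal.ofReal (c * t ^ 2) * ENNReal.ofReal m := mul_le_mul_right hI _
      _ = _ := by rw [← ENNReal.ofReal_mul (by positivity)]
  have h2 : ∫⁻ y, g y * cv g y ≤ ENNReal.ofReal (√(c * m) * t ^ 5) := by
    have a1 : (∫⁻ y, g y * cv g y) ^ 2 ≤ ENNReal.ofReal (√(c * m) * t ^ 5) ^ 2 := by
      refine (cs2 volume hg hp).trans ?_
      refine (mul_le_mul' hD h1).trans (le_of_eq ?_)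
      rw [← ENNReal.ofReal_mul (by positivity), ← ENNReal.ofReal_pow (by positivity), mul_pow,
        Real.sq_sqrt (by positivity)]
      congr 1
      ring
    exact (ENNReal.pow_le_pow_left_iff (by norm_num)).1 a1
  refine ⟨h1, h2, fun A => ?_⟩
  have hH : Measurable (fun z => g z * (cv g z + A)) := hg.mul (hp.add_const A)
  rw [cv_symm (hp.add_const A) hH]
  calc ∫⁻ y, cv (fun z => cv g z + A) y * (g y * (cv g y + A))
      ≤ ∫⁻ y, (ENNReal.ofReal (c * t ^ 2) + A * k1) * (g y * (cv g y + A)) := by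
        refine lintegral_mono fun y => mul_le_mul_left ?_ _
        rw [cv_add_const hp]
        exact add_le_add (hq y) le_rfl
    _ = (ENNReal.ofReal (c * t ^ 2) + A * k1) * ∫⁻ y, g y * (cv g y + A) :=
        lintegral_const_mul _ hH
    _ ≤ _ := by
        apply mul_le_mul_right
        simp only [mul_add]
        have m : Measurable (fun y => g y * cv g y) := hg.mul hp
        rw [lintegral_add_left m]
        apply add_le_add h2
        rw [lintegral_mul_const _ hg, mul_comm]
        exact mul_le_mul_right hI _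

/-- The near estimate at the scale one, in terms of `m` and `A`. -/
theorem near2a (K : ℝ) (hK : 0 ≤ K) : ∃ c κ : ℝ, 0 ≤ c ∧ 0 ≤ κ ∧ ∀ (A m : ℝ), 0 ≤ A → 0 ≤ m →
    ∀ f : W → ℝ, Continuous f → (∀ y, 0 ≤ f y) → Mor K 8 f → ∀ x : W,
    ∫ y in closedBall x 8, f y ≤ m → ∃ t : ℝ, 0 ≤ t ∧ t ^ 8 = ∫ y in closedBall x 8, f y ^ 2 ∧
      (∫ y in closedBall x 4, (pot 1 f y + A) ^ 2)
        + (∫ y in closedBall x 4, (pot 1 f y + A) * pot 1 (fun z => f z * (pot 1 f z + A)) y)
        + (∫ y in closedBall x 4, f y * (pot 1 f y + A))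
      ≤ (2 * (c * t ^ 2 * m) + 1024 * A ^ 2)
        + (c * t ^ 2 + A * κ) * (√(c * m) * t ^ 5 + A * m) + (√(c * m) * t ^ 5 + A * m) := by
  obtain ⟨c, hc, hglob⟩ := glob2 K hK
  set κ : ℝ := k1.toReal with hκ
  have hκn : 0 ≤ κ := ENNReal.toReal_nonneg
  have hκe : k1 = ENNReal.ofReal κ := (ENNReal.ofReal_toReal k1_top).symm
  refine ⟨c, κ, hc, hκn, ?_⟩
  intro A m hA hm f hf hf0 hM x hfm
  set F : W → ℝ≥0∞ := fun z => ENNReal.ofReal (f z) with hF
  have hFm : Measurable F := hf.measurable.ennreal_ofReal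
  set G : W → ℝ≥0∞ := (closedBall x 8).indicator F with hG
  have hGm : Measurable G := hFm.indicator measurableSet_closedBall
  have hGF : ∀ z, G z ≤ F z := fun z => indicator_le_self _ _ z
  have hGe : ∀ z ∈ closedBall x 8, G z = F z := fun z hz => indicator_of_mem hz _
  have hint : ∀ (y : W) (s : ℝ), ∫⁻ z in closedBall y s, F z =
      ENNReal.ofReal (∫ z in closedBall y s, f z) := by
    intro y s
    rw [ofReal_integral_eq_lintegral_ofReal
      (hf.continuousOn.integrableOn_compact (isCompact_closedBall y s))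
      (Filter.Eventually.of_forall hf0)]
  have habs : ∀ (y : W) (s : ℝ), ∫ z in closedBall y s, |f z| = ∫ z in closedBall y s, f z := by
    intro y s
    refine integral_congr_ae (Filter.Eventually.of_forall fun z => ?_)
    exact abs_of_nonneg (hf0 z)
  set D : ℝ := ∫ y in closedBall x 8, f y ^ 2 with hD
  have hD0 : 0 ≤ D := integral_nonneg fun y => by positivity
  set t : ℝ := D ^ (1 / 8 : ℝ) with ht
  have ht0 : 0 ≤ t := by positivity
  have ht8 : t ^ 8 = D := by
    rw [ht, ← Real.rpow_natCast, ← Real.rpow_mul hD0]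
    norm_num
  refine ⟨t, ht0, ht8, ?_⟩
  have g1 : ∀ (y : W) (s : ℝ), 0 < s → s ≤ 2 →
      ∫⁻ z in closedBall y s, G z ≤ ENNReal.ofReal (K * s) := by
    intro y s hs hs2
    refine (lintegral_mono fun z => hGF z).trans ?_
    rw [hint]
    apply ENNReal.ofReal_le_ofReal
    rw [← habs]
    exact hM y s hs (by linarith)
  have g2 : ∫⁻ z, G z ≤ ENNReal.ofReal m := by
    rw [hG, lintegral_indicator measurableSet_closedBall, hint]
    exact ENNReal.ofReal_le_ofReal hfm
  have g3 : ∫⁻ z, G z ^ 2 ≤ ENNReal.ofReal (t ^ 8) := by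
    have e : ∀ z, G z ^ 2 = (closedBall x 8).indicator (fun z => ENNReal.ofReal (f z ^ 2)) z := by
      intro z
      by_cases hz : z ∈ closedBall x 8
      · rw [hGe z hz, indicator_of_mem hz, hF, ENNReal.ofReal_pow (hf0 z)]
      · rw [hG, indicator_of_notMem hz, indicator_of_notMem hz]
        norm_num
    simp only [e]
    have hi : Integrable (fun z => f z ^ 2) (volume.restrict (closedBall x 8)) :=
      (hf.pow 2).continuousOn.integrableOn_compact (isCompact_closedBall x 8)
    rw [lintegral_indicator measurableSet_closedBall, ht8, hD,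
      ofReal_integral_eq_lintegral_ofReal hi (Filter.Eventually.of_forall fun z => sq_nonneg _)]
  obtain ⟨b1, b3, b2⟩ := hglob m t G hm ht0 hGm g1 g2 g3
  -- the potential is at most `cv G` on the cube of radius 7
  have hP : ∀ y ∈ closedBall x 7, ENNReal.ofReal (pot 1 f y) ≤ cv G y := by
    intro y hy
    refine (pot_le hf0 y).trans (cv_mono fun z hz => ?_)
    rw [hGe]
    rw [mem_closedBall] at hy ⊢
    calc dist (y + z) x ≤ dist (y + z) y + dist y x := dist_triangle _ _ _
      _ ≤ 1 + 7 := by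
          apply add_le_add _ hy
          rw [dist_eq_norm, add_sub_cancel_left]
          exact hz
      _ = 8 := by norm_num
  have hsub : ∀ y ∈ closedBall x 4, y ∈ closedBall x 7 := fun y hy =>
    closedBall_subset_closedBall (by norm_num) hy
  have hPA : ∀ y ∈ closedBall x 7, ENNReal.ofReal (pot 1 f y + A) ≤ cv G y + ENNReal.ofReal A := by
    intro y hy
    rw [ENNReal.ofReal_add (pot_nn 1 f y) hA]
    exact add_le_add (hP y hy) le_rfl
  have hPAn : ∀ y, 0 ≤ pot 1 f y + A := fun y => add_nonneg (pot_nn 1 f y) hA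
  -- the first integral
  have T1 : ENNReal.ofReal (∫ y in closedBall x 4, (pot 1 f y + A) ^ 2) ≤
      ENNReal.ofReal (2 * (c * t ^ 2 * m) + 1024 * A ^ 2) := by
    refine (ofReal_int_le fun y => by positivity).trans ?_
    have h1 : ∀ y ∈ closedBall x 4, ENNReal.ofReal ((pot 1 f y + A) ^ 2) ≤
        2 * cv G y ^ 2 + ENNReal.ofReal (2 * A ^ 2) := by
      intro y hy
      have h2 : (pot 1 f y + A) ^ 2 ≤ 2 * pot 1 f y ^ 2 + 2 * A ^ 2 := by
        nlinarith [sq_nonneg (pot 1 f y - A)]
      refine (ENNReal.ofReal_le_ofReal h2).trans ?_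
      rw [ENNReal.ofReal_add (by positivity) (by positivity)]
      refine add_le_add ?_ le_rfl
      rw [ENNReal.ofReal_mul (by norm_num), ENNReal.ofReal_pow (pot_nn 1 f y)]
      rw [ENNReal.ofReal_ofNat]
      exact mul_le_mul_right (pow_le_pow_left' (hP y (hsub y hy)) 2) _
    refine (setLIntegral_mono' measurableSet_closedBall h1).trans ?_
    have m' : Measurable (fun y => 2 * cv G y ^ 2) := ((cv_meas hGm).pow_const 2).const_mul 2
    rw [lintegral_add_left m', lintegral_const, Measure.restrict_apply_univ, vol_four,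
      lintegral_const_mul _ ((cv_meas hGm).pow_const 2)]
    have e0 : ENNReal.ofReal (2 * (c * t ^ 2 * m) + 1024 * A ^ 2) =
        2 * ENNReal.ofReal (c * t ^ 2 * m) + ENNReal.ofReal (2 * A ^ 2) * 512 := by
      rw [ENNReal.ofReal_add (by positivity) (by positivity), ENNReal.ofReal_mul (by norm_num),
        ENNReal.ofReal_ofNat]
      congr 1
      have e : (1024 : ℝ) * A ^ 2 = 2 * A ^ 2 * 512 := by ring
      rw [e, ENNReal.ofReal_mul (by positivity)]
      norm_num
    rw [e0]
    apply add_le_add _ le_rfl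
    exact mul_le_mul_right ((setLIntegral_le_lintegral _ _).trans b1) _
  -- the third integral
  have T3 : ENNReal.ofReal (∫ y in closedBall x 4, f y * (pot 1 f y + A)) ≤
      ENNReal.ofReal (√(c * m) * t ^ 5 + A * m) := by
    refine (ofReal_int_le fun y => mul_nonneg (hf0 y) (hPAn y)).trans ?_
    have h1 : ∀ y ∈ closedBall x 4, ENNReal.ofReal (f y * (pot 1 f y + A)) ≤
        G y * cv G y + ENNReal.ofReal A * G y := by
      intro y hy
      rw [ENNReal.ofReal_mul (hf0 y)]
      have h2 : G y = ENNReal.ofReal (f y) :=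
        hGe y (closedBall_subset_closedBall (by norm_num) hy)
      rw [← h2, mul_comm (ENNReal.ofReal A), ← mul_add]
      exact mul_le_mul_right (hPA y (hsub y hy)) _
    refine (setLIntegral_mono' measurableSet_closedBall h1).trans ?_
    refine (setLIntegral_le_lintegral _ _).trans ?_
    have m' : Measurable (fun y => G y * cv G y) := hGm.mul (cv_meas hGm)
    rw [lintegral_add_left m', lintegral_const_mul _ hGm,
      ENNReal.ofReal_add (by positivity) (by positivity), ENNReal.ofReal_mul hA]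
    exact add_le_add b3 (mul_le_mul_right g2 _)
  -- the second integral
  have T2 : ENNReal.ofReal (∫ y in closedBall x 4,
      (pot 1 f y + A) * pot 1 (fun z => f z * (pot 1 f z + A)) y) ≤
      ENNReal.ofReal ((c * t ^ 2 + A * κ) * (√(c * m) * t ^ 5 + A * m)) := by
    refine (ofReal_int_le fun y => mul_nonneg (hPAn y) (pot_nn _ _ _)).trans ?_
    have h1 : ∀ y ∈ closedBall x 4, ENNReal.ofReal
        ((pot 1 f y + A) * pot 1 (fun z => f z * (pot 1 f z + A)) y) ≤
        (cv G y + ENNReal.ofReal A) * cv (fun z => G z * (cv G z + ENNReal.ofReal A)) y := by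
      intro y hy
      rw [ENNReal.ofReal_mul (hPAn y)]
      apply mul_le_mul' (hPA y (hsub y hy))
      refine (pot_le (fun z => mul_nonneg (hf0 z) (hPAn z)) y).trans (cv_mono fun z hz => ?_)
      have hyz : y + z ∈ closedBall x 5 := by
        rw [mem_closedBall] at hy ⊢
        calc dist (y + z) x ≤ dist (y + z) y + dist y x := dist_triangle _ _ _
          _ ≤ 1 + 4 := by
              apply add_le_add _ hy
              rw [dist_eq_norm, add_sub_cancel_left]
              exact hz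
          _ = 5 := by norm_num
      rw [ENNReal.ofReal_mul (hf0 _)]
      have h2 : G (y + z) = ENNReal.ofReal (f (y + z)) :=
        hGe _ (closedBall_subset_closedBall (by norm_num) hyz)
      rw [← h2]
      exact mul_le_mul_right (hPA _ (closedBall_subset_closedBall (by norm_num) hyz)) _
    refine (setLIntegral_mono' measurableSet_closedBall h1).trans ?_
    refine (setLIntegral_le_lintegral _ _).trans ?_
    refine (b2 (ENNReal.ofReal A)).trans (le_of_eq ?_)
    rw [hκe, ← ENNReal.ofReal_mul hA, ← ENNReal.ofReal_mul hA,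
      ← ENNReal.ofReal_add (by positivity) (by positivity),
      ← ENNReal.ofReal_add (by positivity) (by positivity), ← ENNReal.ofReal_mul (by positivity)]
  rw [ENNReal.ofReal_le_ofReal_iff (by positivity)] at T1 T2 T3
  linarith

/-- The near estimate at the scale one, with a small remainder. -/
theorem near2b (K δ ε : ℝ) (hK : 0 ≤ K) (hδ : 0 < δ) (hε : 0 < ε) : ∃ η : ℝ, 0 < η ∧ η ≤ 1 ∧
    ∀ A : ℝ, 0 ≤ A → A ≤ η →
    ∀ f : W → ℝ, Continuous f → (∀ y, 0 ≤ f y) → Mor K 8 f → ∀ x : W,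
    ∫ y in closedBall x 8, f y ≤ η →
      (∫ y in closedBall x 4, (pot 1 f y + A) ^ 2)
        + (∫ y in closedBall x 4, (pot 1 f y + A) * pot 1 (fun z => f z * (pot 1 f z + A)) y)
        + (∫ y in closedBall x 4, f y * (pot 1 f y + A))
      ≤ δ * (∫ y in closedBall x 8, f y ^ 2) + ε := by
  obtain ⟨c, κ, hc, hκ, H⟩ := near2a K hK
  obtain ⟨b, hb⟩ : ∃ b, b = 3 * c + (c + κ + 1) * √c := ⟨_, rfl⟩
  have hb0 : 0 ≤ b := by rw [hb]; positivity
  obtain ⟨σ, hσd⟩ : ∃ σ, σ = min 1 (min (δ / (b + 1)) (ε / (2 * b + 1025 + κ))) := ⟨_, rfl⟩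
  have hσ : 0 < σ := by
    rw [hσd]
    exact lt_min one_pos (lt_min (by positivity) (by positivity))
  have hσ1 : σ ≤ 1 := by rw [hσd]; exact min_le_left _ _
  have hσ2 : b * σ ≤ δ := by
    have h1 : σ ≤ δ / (b + 1) := by rw [hσd]; exact (min_le_right _ _).trans (min_le_left _ _)
    rw [le_div_iff₀ (by positivity)] at h1
    nlinarith
  have hσ3 : (2 * b + 1025 + κ) * σ ≤ ε := by
    have h1 : σ ≤ ε / (2 * b + 1025 + κ) := by
      rw [hσd]; exact (min_le_right _ _).trans (min_le_right _ _)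
    rw [le_div_iff₀ (by positivity)] at h1
    linarith
  refine ⟨σ ^ 2, by positivity, pow_le_one₀ hσ.le hσ1, ?_⟩
  intro A hA hAη f hf hf0 hM x hfm
  obtain ⟨t, ht, ht8, h1⟩ := H A (σ ^ 2) hA (by positivity) f hf hf0 hM x hfm
  refine h1.trans ?_
  rw [← ht8]
  have hs2 : σ ^ 2 ≤ σ := pow_le_of_le_one hσ.le hσ1 two_ne_zero
  have hAσ : A ≤ σ := hAη.trans hs2
  have hA1 : A ≤ 1 := hAσ.trans hσ1
  have hsq : √(c * σ ^ 2) = √c * σ := by
    rw [Real.sqrt_mul hc, Real.sqrt_sq hσ.le]
  rw [hsq]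
  have p2 := pow_le_one_add t ht 2 (by norm_num)
  have p5 := pow_le_one_add t ht 5 (by norm_num)
  have hsc : 0 ≤ √c := Real.sqrt_nonneg _
  have ht7 : 0 ≤ t ^ 7 := by positivity
  obtain ⟨U, hU⟩ : ∃ U, U = 1 + t ^ 7 := ⟨_, rfl⟩
  have hU1 : 1 ≤ U := by rw [hU]; linarith
  rw [← hU] at p2 p5
  have q1 : 2 * (c * t ^ 2 * σ ^ 2) ≤ 2 * c * σ * U := by
    calc 2 * (c * t ^ 2 * σ ^ 2) ≤ 2 * (c * U * σ) := by gcongr
      _ = _ := by ring
  have q2 : 1024 * A ^ 2 ≤ 1024 * σ := by
    have : A ^ 2 ≤ A := pow_le_of_le_one hA hA1 two_ne_zero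
    linarith
  have q3 : (c * t ^ 2 + A * κ) * (√c * σ * t ^ 5 + A * σ ^ 2)
      ≤ (c * √c + c + κ * √c) * σ * U + κ * σ := by
    have e : (c * t ^ 2 + A * κ) * (√c * σ * t ^ 5 + A * σ ^ 2)
        = c * √c * σ * t ^ 7 + c * (A * σ ^ 2) * t ^ 2 + A * (κ * √c * σ * t ^ 5)
          + κ * (A ^ 2 * σ ^ 2) := by ring
    rw [e]
    have r1 : c * √c * σ * t ^ 7 ≤ c * √c * σ * U := by
      have : t ^ 7 ≤ U := by rw [hU]; linarith
      gcongr
    have r2 : c * (A * σ ^ 2) * t ^ 2 ≤ c * (1 * σ) * U := by gcongr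
    have r3 : A * (κ * √c * σ * t ^ 5) ≤ 1 * (κ * √c * σ * U) := by gcongr
    have r4 : κ * (A ^ 2 * σ ^ 2) ≤ κ * (1 * σ) := by
      have : A ^ 2 ≤ 1 := pow_le_one₀ hA hA1
      gcongr
    linarith
  have q4 : √c * σ * t ^ 5 + A * σ ^ 2 ≤ √c * σ * U + σ := by
    have r1 : √c * σ * t ^ 5 ≤ √c * σ * U := by gcongr
    have r2 : A * σ ^ 2 ≤ 1 * σ := by gcongr
    linarith
  have q5 : 2 * c * σ * U + (c * √c + c + κ * √c) * σ * U + √c * σ * U = b * σ * U := by
    rw [hb]
    ring
  have q6 : b * σ * U ≤ δ * t ^ 8 + 2 * b * σ := by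
    rw [hU]
    rcases le_total t 1 with h | h
    · have h7 : t ^ 7 ≤ 1 := pow_le_one₀ ht h
      have h8 : 0 ≤ δ * t ^ 8 := by positivity
      have h9 : b * σ * (1 + t ^ 7) ≤ b * σ * 2 := by
        have : 0 ≤ b * σ := by positivity
        exact mul_le_mul_of_nonneg_left (by linarith) this
      linarith
    · have h7 : t ^ 7 ≤ t ^ 8 := pow_le_pow_right₀ h (by norm_num)
      have h8 : b * σ * t ^ 7 ≤ δ * t ^ 8 :=
        mul_le_mul hσ2 h7 (by positivity) hδ.le
      have h9 : 0 ≤ b * σ := by positivity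
      linarith
  have q7 : (2 * b + 1025 + κ) * σ = 2 * b * σ + 1024 * σ + κ * σ + σ := by ring
  linarith

/-- The near estimate with a small integral, at the scale `r`. -/
theorem near2r (K δ ε : ℝ) (hK : 0 ≤ K) (hδ : 0 < δ) (hε : 0 < ε) : ∃ η : ℝ, 0 < η ∧ η ≤ 1 ∧
    ∀ A : ℝ, 0 ≤ A → A ≤ η → ∀ (r : ℝ) (f : W → ℝ), 0 < r → Continuous f → (∀ y, 0 ≤ f y) →
    Mor K (8 * r) f → ∀ x : W, ∫ y in closedBall x (8 * r), f y ≤ η * r →
      (∫ y in closedBall x (4 * r), (pot r f y + A / r) ^ 2) / r ^ 2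
      + (∫ y in closedBall x (4 * r), (pot r f y + A / r) *
          pot r (fun z => f z * (pot r f z + A / r)) y) / r
      + (∫ y in closedBall x (4 * r), f y * (pot r f y + A / r)) / r
      ≤ δ * (∫ y in closedBall x (8 * r), f y ^ 2) + ε / r := by
  obtain ⟨η, hη, hη1, h⟩ := near2b K δ ε hK hδ hε
  refine ⟨η, hη, hη1, ?_⟩
  intro A hA hAη r f hr hf hf0 hM x hfm
  set f' : W → ℝ := fun y => r ^ 2 * f (r • y) with hf'
  have c1 : Continuous f' := by
    rw [hf']
    exact (hf.comp (continuous_const_smul r)).const_mul _ |>.congr fun y => rfl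
  have c2 : ∀ y, 0 ≤ f' y := fun y => mul_nonneg (by positivity) (hf0 _)
  have c3 : Mor K 8 f' := by
    intro y s hs hs8
    have e : ∀ z : W, |f' z| = r ^ 2 * (fun w => |f w|) (r • z) := by
      intro z
      rw [hf']
      simp only
      rw [abs_mul, abs_of_nonneg (by positivity : 0 ≤ r ^ 2)]
    simp only [e]
    rw [integral_const_mul, set_scale hr (fun w => |f w|) y hs.le]
    have h1 := hM (r • y) (r * s) (by positivity) (by nlinarith)
    have h2 : r ^ 2 * ((r ^ 3)⁻¹ * ∫ z in closedBall (r • y) (r * s), |f z|) =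
        r⁻¹ * ∫ z in closedBall (r • y) (r * s), |f z| := by
      field_simp
    rw [h2]
    calc r⁻¹ * ∫ z in closedBall (r • y) (r * s), |f z| ≤ r⁻¹ * (K * (r * s)) :=
          mul_le_mul_of_nonneg_left h1 (by positivity)
      _ = K * s := by field_simp
  have hx : r • (r⁻¹ • x) = x := by
    rw [smul_smul, mul_inv_cancel₀ hr.ne', one_smul]
  have c4 : ∫ y in closedBall (r⁻¹ • x) 8, f' y ≤ η := by
    have e : ∀ z : W, f' z = r ^ 2 * f (r • z) := fun z => by rw [hf']
    simp only [e]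
    rw [integral_const_mul, set_scale hr f _ (by norm_num), hx, mul_comm r 8]
    have h2 : r ^ 2 * ((r ^ 3)⁻¹ * ∫ z in closedBall x (8 * r), f z) =
        r⁻¹ * ∫ z in closedBall x (8 * r), f z := by
      field_simp
    rw [h2]
    calc r⁻¹ * ∫ z in closedBall x (8 * r), f z ≤ r⁻¹ * (η * r) :=
          mul_le_mul_of_nonneg_left hfm (by positivity)
      _ = η := by field_simp
  have hp : ∀ y, pot 1 f' y = r * pot r f (r • y) := by
    intro y
    rw [hf', pot_const, pot_scale hr, abs_of_nonneg (by positivity)]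
    field_simp
  set Q : W → ℝ := pot r (fun z => f z * (pot r f z + A / r)) with hQ
  have hq : ∀ y, pot 1 (fun z => f' z * (pot 1 f' z + A)) y = r ^ 2 * Q (r • y) := by
    intro y
    have e : (fun z => f' z * (pot 1 f' z + A)) =
        fun z => r ^ 3 * (fun w => f w * (pot r f w + A / r)) (r • z) := by
      funext z
      rw [hp, hf']
      simp only
      field_simp
    rw [e, pot_const, pot_scale hr (fun w => f w * (pot r f w + A / r)), abs_of_nonneg (by positivity)]
    rw [hQ]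
    field_simp
  have hmain := h A hA hAη f' c1 c2 c3 (r⁻¹ • x) c4
  have i1 : ∫ y in closedBall (r⁻¹ • x) 4, (pot 1 f' y + A) ^ 2 =
      r⁻¹ * ∫ y in closedBall x (4 * r), (pot r f y + A / r) ^ 2 := by
    have e : ∀ y : W, (pot 1 f' y + A) ^ 2 =
        r ^ 2 * (fun w => (pot r f w + A / r) ^ 2) (r • y) := by
      intro y
      rw [hp]
      simp only
      field_simp
    simp only [e]
    rw [integral_const_mul, set_scale hr (fun w => (pot r f w + A / r) ^ 2) _ (by norm_num), hx,
      mul_comm r 4]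
    field_simp
  have i2 : ∫ y in closedBall (r⁻¹ • x) 4,
      (pot 1 f' y + A) * pot 1 (fun z => f' z * (pot 1 f' z + A)) y =
      ∫ y in closedBall x (4 * r), (pot r f y + A / r) * Q y := by
    have e : ∀ y : W, (pot 1 f' y + A) * pot 1 (fun z => f' z * (pot 1 f' z + A)) y =
        r ^ 3 * (fun w => (pot r f w + A / r) * Q w) (r • y) := by
      intro y
      rw [hq, hp]
      simp only
      field_simp
    simp only [e]
    rw [integral_const_mul, set_scale hr (fun w => (pot r f w + A / r) * Q w) _ (by norm_num), hx,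
      mul_comm r 4]
    field_simp
  have i3 : ∫ y in closedBall (r⁻¹ • x) 4, f' y * (pot 1 f' y + A) =
      ∫ y in closedBall x (4 * r), f y * (pot r f y + A / r) := by
    have e : ∀ y : W, f' y * (pot 1 f' y + A) =
        r ^ 3 * (fun w => f w * (pot r f w + A / r)) (r • y) := by
      intro y
      rw [hp, hf']
      simp only
      field_simp
    simp only [e]
    rw [integral_const_mul, set_scale hr (fun w => f w * (pot r f w + A / r)) _ (by norm_num), hx,
      mul_comm r 4]
    field_simp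
  have i4 : ∫ y in closedBall (r⁻¹ • x) 8, f' y ^ 2 = r * ∫ y in closedBall x (8 * r), f y ^ 2 := by
    have e : ∀ y : W, f' y ^ 2 = r ^ 4 * (fun w => f w ^ 2) (r • y) := by
      intro y
      rw [hf']
      simp only
      ring
    simp only [e]
    rw [integral_const_mul, set_scale hr (fun w => f w ^ 2) _ (by norm_num), hx, mul_comm r 8]
    field_simp
  rw [i1, i2, i3, i4] at hmain
  have e5 : (∫ y in closedBall x (4 * r), (pot r f y + A / r) ^ 2) / r ^ 2
      + (∫ y in closedBall x (4 * r), (pot r f y + A / r) * Q y) / r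
      + (∫ y in closedBall x (4 * r), f y * (pot r f y + A / r)) / r =
      (r⁻¹ * (∫ y in closedBall x (4 * r), (pot r f y + A / r) ^ 2)
        + (∫ y in closedBall x (4 * r), (pot r f y + A / r) * Q y)
        + ∫ y in closedBall x (4 * r), f y * (pot r f y + A / r)) / r := by
    field_simp
  have e6 : δ * (∫ y in closedBall x (8 * r), f y ^ 2) + ε / r =
      (δ * (r * ∫ y in closedBall x (8 * r), f y ^ 2) + ε) / r := by
    field_simp
  show (∫ y in closedBall x (4 * r), (pot r f y + A / r) ^ 2) / r ^ 2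
      + (∫ y in closedBall x (4 * r), (pot r f y + A / r) * Q y) / r
      + (∫ y in closedBall x (4 * r), f y * (pot r f y + A / r)) / r ≤
      δ * (∫ y in closedBall x (8 * r), f y ^ 2) + ε / r
  rw [e5, e6]
  exact div_le_div_of_nonneg_right hmain hr.le

open Pool.Agent.Q85.CL Pool.Agent.Q16.CC Pool.Agent.Q16.CL in
/-- The local form. -/
theorem near2L (K δ ε : ℝ) (hK : 0 ≤ K) (hδ : 0 < δ) (hε : 0 < ε) : ∃ η : ℝ, 0 < η ∧ η ≤ 1 ∧
    ∀ A : ℝ, 0 ≤ A → A ≤ η → ∀ (r ρ : ℝ) (f : V → ℝ) (x : V), 0 < r → 7 * r ≤ ρ →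
    Continuous f → (∀ y, 0 ≤ f y) → MorB K x ρ f → ∫ y in closedBall x (8 * r), f y ≤ η * r →
      NT f x r A ≤ δ * (∫ y in closedBall x (8 * r), f y ^ 2) + ε / r := by
  obtain ⟨η, hη, hη1, h⟩ := near2r K δ ε hK hδ hε
  refine ⟨η, hη, hη1, ?_⟩
  intro A hA hAη r ρ f x hr hρ hf hf0 hM hfm
  set g : V → ℝ := fun y => cf x r y * f y with hg
  have hgc : Continuous g := (cf_cont x r).mul hf
  have hg0 : ∀ y, 0 ≤ g y := fun y => mul_nonneg (cf_nonneg x r y) (hf0 y)
  have hgm : ∫ y in closedBall x (8 * r), g y ≤ η * r := by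
    refine (setIntegral_mono_on (integrableOn_ball hgc _ _) (integrableOn_ball hf _ _)
      measurableSet_closedBall fun y _ => ?_).trans hfm
    exact mul_le_of_le_one_left (hf0 y) (cf_le x r y)
  have h1 := h A hA hAη r g hr hgc hg0 (mor_cut hf hK hr hρ hM) x hgm
  have e0 : ∀ y ∈ closedBall x (6 * r), g y = f y := by
    intro y hy
    rw [hg]
    simp only
    rw [cf_one hr hy, one_mul]
  have e1 : ∀ y ∈ closedBall x (5 * r), pot r g y = pot r f y := by
    intro y hy
    refine pot_congrL fun z hz => e0 _ ?_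
    have := mem_add hy hz
    rwa [show 5 * r + r = 6 * r by ring] at this
  have s54 : closedBall x (4 * r) ⊆ closedBall x (5 * r) := closedBall_subset_closedBall (by linarith)
  have s64 : closedBall x (4 * r) ⊆ closedBall x (6 * r) := closedBall_subset_closedBall (by linarith)
  have s65 : closedBall x (5 * r) ⊆ closedBall x (6 * r) := closedBall_subset_closedBall (by linarith)
  have e2 : ∀ y ∈ closedBall x (4 * r), pot r (fun z => g z * (pot r g z + A / r)) y =
      pot r (fun z => f z * (pot r f z + A / r)) y := by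
    intro y hy
    refine pot_congrL fun z hz => ?_
    have h2 := mem_add hy hz
    rw [show 4 * r + r = 5 * r by ring] at h2
    rw [e1 _ h2, e0 _ (s65 h2)]
  have i1 : ∫ y in closedBall x (4 * r), (pot r g y + A / r) ^ 2 = ∫ y in closedBall x (4 * r), (pot r f y + A / r) ^ 2 := by
    refine setIntegral_congr_fun measurableSet_closedBall fun y hy => ?_
    beta_reduce
    rw [e1 y (s54 hy)]
  have i2 : ∫ y in closedBall x (4 * r), (pot r g y + A / r) * pot r (fun z => g z * (pot r g z + A / r)) y =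
      ∫ y in closedBall x (4 * r), (pot r f y + A / r) * pot r (fun z => f z * (pot r f z + A / r)) y := by
    refine setIntegral_congr_fun measurableSet_closedBall fun y hy => ?_
    beta_reduce
    rw [e1 y (s54 hy), e2 y hy]
  have i3 : ∫ y in closedBall x (4 * r), g y * (pot r g y + A / r) =
      ∫ y in closedBall x (4 * r), f y * (pot r f y + A / r) := by
    refine setIntegral_congr_fun measurableSet_closedBall fun y hy => ?_
    beta_reduce
    rw [e1 y (s54 hy), e0 y (s64 hy)]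
  have i4 : ∫ y in closedBall x (8 * r), g y ^ 2 ≤ ∫ y in closedBall x (8 * r), f y ^ 2 := by
    refine setIntegral_mono_on (integrableOn_ball (hgc.pow 2) _ _) (integrableOn_ball (hf.pow 2) _ _)
      measurableSet_closedBall fun y _ => ?_
    refine pow_le_pow_left₀ (hg0 y) ?_ 2
    exact mul_le_of_le_one_left (hf0 y) (cf_le x r y)
  rw [i1, i2, i3] at h1
  have := mul_le_mul_of_nonneg_left i4 hδ.le
  unfold NT
  linarith

end Pool.Agent.U481.TY
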